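import Pool.Agent.Q112.CH.Count

set_option autoImplicit false

namespace Pool.Agent.Q112.CH

open Finset SimpleGraph

variable {W : Type*} [Fintype W]

/-- inside its component of `T[X]` the graph `T` can be changed so that the degree of `u` becomes
at most `k - 2` and the other degrees in the component at most `k - 1` -/
def Md (Q T : SimpleGraph W) (k : ℕ) (X : Set W) (u : W) : Prop :=
  ∃ R : SimpleGraph W, R ≤ Q ∧ (∀ x y, R.Adj x y → x ∈ cp T X u ∧ y ∈ cp T X u) ∧
    (∀ x ∈ cp T X u, ∀ y ∈ cp T X u, R.Reachable x y) ∧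
    (∀ x ∈ cp T X u, dg R x + out T (cp T X u) x + 1 ≤ k) ∧
    dg R u + out T (cp T X u) u + 2 ≤ k

open Classical in
theorem dg_split (T : SimpleGraph W) (C : Set W) (x : W) :
    (univ.filter fun y => T.Adj x y ∧ y ∈ C).card + out T C x = dg T x := by
  unfold out dg
  rw [← card_union_of_disjoint]
  · congr 1
    ext y
    simp only [mem_union, mem_filter, mem_univ, true_and]
    tauto
  · rw [Finset.disjoint_left]
    intro y h1 h2
    exact (mem_filter.1 h2).2.2 (mem_filter.1 h1).2.2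

open Classical in
theorem out_split (T : SimpleGraph W) {C D : Set W} (hD : D ⊆ C) (x : W) :
    (univ.filter fun y => T.Adj x y ∧ y ∈ C ∧ y ∉ D).card + out T C x = out T D x := by
  unfold out
  rw [← card_union_of_disjoint]
  · congr 1
    ext y
    simp only [mem_union, mem_filter, mem_univ, true_and]
    constructor
    · rintro (⟨h1, h2, h3⟩ | ⟨h1, h2⟩)
      · exact ⟨h1, h3⟩
      · exact ⟨h1, fun h => h2 (hD h)⟩
    · rintro ⟨h1, h2⟩
      by_cases h3 : y ∈ C
      · exact Or.inl ⟨h1, h3, h2⟩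
      · exact Or.inr ⟨h1, h3⟩
  · rw [Finset.disjoint_left]
    intro y h1 h2
    exact (mem_filter.1 h2).2.2 (mem_filter.1 h1).2.2.1

theorem md_low {Q T : SimpleGraph W} (hTQ : T ≤ Q) {k : ℕ} {X : Set W} {w : W} (hw : w ∈ X)
    (hwk : dg T w + 2 ≤ k) (hX : ∀ x ∈ X, dg T x + 1 ≤ k) : Md Q T k X w := by
  classical
  have hdeg : ∀ x ∈ cp T X w, dg (res T (cp T X w)) x + out T (cp T X w) x ≤ dg T x := by
    intro x _
    rw [← dg_split T (cp T X w) x]
    refine Nat.add_le_add_right (card_le_card fun y hy => ?_) _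
    have hy' := (mem_filter.1 hy).2
    exact mem_filter.2 ⟨mem_univ _, hy'.1, hy'.2.2⟩
  refine ⟨res T (cp T X w), fun x y h => hTQ h.1, fun x y h => ⟨h.2.1, h.2.2⟩,
    fun x hx y hy => cp_reach hx hy, fun x hx => ?_, ?_⟩
  · have h1 := hdeg x hx
    have h2 := hX x (cp_sub T hw hx)
    omega
  · have h1 := hdeg w (mem_cp_self T X w)
    omega

theorem md_mono {Q T : SimpleGraph W} (hTQ : T ≤ Q) {k : ℕ} {X Y : Set W} (hXY : X ⊆ Y) {u : W}
    (hu : u ∈ X) (h : Md Q T k X u) (hY : ∀ x ∈ Y, dg T x + 1 ≤ k) : Md Q T k Y u := by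
  classical
  obtain ⟨R, hRQ, hRs, hRc, hRd, hRu⟩ := h
  have hCC : cp T X u ⊆ cp T Y u := cp_mono hXY u
  obtain ⟨R', hR'⟩ : ∃ R' : SimpleGraph W, ∀ x y, R'.Adj x y ↔ R.Adj x y ∨
      (T.Adj x y ∧ x ∈ cp T Y u ∧ y ∈ cp T Y u ∧ ¬ (x ∈ cp T X u ∧ y ∈ cp T X u)) :=
    ⟨{ Adj := fun x y => R.Adj x y ∨
        (T.Adj x y ∧ x ∈ cp T Y u ∧ y ∈ cp T Y u ∧ ¬ (x ∈ cp T X u ∧ y ∈ cp T X u))
       symm := ⟨fun x y h => by
        rcases h with h | ⟨h1, h2, h3, h4⟩
        · exact Or.inl h.symm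
        · exact Or.inr ⟨h1.symm, h3, h2, fun h => h4 ⟨h.2, h.1⟩⟩⟩
       loopless := ⟨fun x h => by
        rcases h with h | ⟨h1, _⟩
        · exact h.ne rfl
        · exact h1.ne rfl⟩ }, fun x y => Iff.rfl⟩
  have hRR : R ≤ R' := fun x y h => (hR' x y).2 (Or.inl h)
  have hcard : ∀ x ∈ cp T X u, dg R' x + out T (cp T Y u) x ≤ dg R x + out T (cp T X u) x := by
    intro x hx
    rw [← out_split T hCC x]
    have h1 : dg R' x ≤ ((univ.filter fun y => R.Adj x y) ∪
        (univ.filter fun y => T.Adj x y ∧ y ∈ cp T Y u ∧ y ∉ cp T X u)).card := by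
      refine card_le_card fun y hy => ?_
      rw [mem_union, mem_filter, mem_filter]
      rcases (hR' x y).1 (mem_filter.1 hy).2 with h | ⟨h1, h2, h3, h4⟩
      · exact Or.inl ⟨mem_univ _, h⟩
      · exact Or.inr ⟨mem_univ _, h1, h3, fun h => h4 ⟨hx, h⟩⟩
    have h2 := card_union_le (univ.filter fun y => R.Adj x y)
      (univ.filter fun y => T.Adj x y ∧ y ∈ cp T Y u ∧ y ∉ cp T X u)
    have h3 : dg R x = (univ.filter fun y => R.Adj x y).card := rfl
    omega
  refine ⟨R', ?_, ?_, ?_, ?_, ?_⟩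
  · intro x y h
    rcases (hR' x y).1 h with h | ⟨h1, _⟩
    · exact hRQ h
    · exact hTQ h1
  · intro x y h
    rcases (hR' x y).1 h with h | ⟨h1, h2, h3, _⟩
    · exact ⟨hCC (hRs x y h).1, hCC (hRs x y h).2⟩
    · exact ⟨h2, h3⟩
  · intro x hx y hy
    have h : Relation.ReflTransGen (res T (cp T Y u)).Adj x y :=
      (reachable_iff_reflTransGen x y).1 (cp_reach hx hy)
    clear hy
    induction h with
    | refl => exact Reachable.refl x
    | @tail b c _ h2 ih =>
      refine ih.trans ?_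
      by_cases h3 : b ∈ cp T X u ∧ c ∈ cp T X u
      · exact (hRc b h3.1 c h3.2).mono hRR
      · exact Adj.reachable ((hR' b c).2 (Or.inr ⟨h2.1, h2.2.1, h2.2.2, h3⟩))
  · intro x hx
    by_cases hxX : x ∈ cp T X u
    · have h1 := hcard x hxX
      have h2 := hRd x hxX
      omega
    · have h1 : dg R' x ≤ (univ.filter fun y => T.Adj x y ∧ y ∈ cp T Y u).card := by
        refine card_le_card fun y hy => ?_
        rcases (hR' x y).1 (mem_filter.1 hy).2 with h | ⟨h1, h2, h3, h4⟩
        · exact absurd (hRs x y h).1 hxX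
        · exact mem_filter.2 ⟨mem_univ _, h1, h3⟩
      have h2 := dg_split T (cp T Y u) x
      have h3 := hY x (cp_sub T (hXY hu) hx)
      omega
  · have h1 := hcard u (mem_cp_self T X u)
    omega

/-- admissible sets -/
def Adm (Q T : SimpleGraph W) (k : ℕ) (X : Set W) : Prop :=
  (∀ x ∈ X, dg T x + 1 ≤ k) ∧ ∀ u ∈ X, Md Q T k X u

theorem adm_low {Q T : SimpleGraph W} (hTQ : T ≤ Q) {k : ℕ} {X : Set W} (hX : Adm Q T k X)
    {w : W} (hwk : dg T w + 2 ≤ k) : Adm Q T k (insert w X) := by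
  have h1 : ∀ x ∈ insert w X, dg T x + 1 ≤ k := by
    intro x hx
    rcases hx with rfl | hx
    · omega
    · exact hX.1 x hx
  refine ⟨h1, fun u hu => ?_⟩
  by_cases huX : u ∈ X
  · exact md_mono hTQ (Set.subset_insert w X) huX (hX.2 u huX) h1
  · rcases hu with rfl | hu
    · exact md_low hTQ (Set.mem_insert _ X) hwk h1
    · exact absurd hu huX

/-- the two possibilities for an edge between two components -/
theorem adm_path {Q T : SimpleGraph W} (hTQ : T ≤ Q) (hTc : T.Connected) {k : ℕ} {X : Set W}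
    (hX : Adm Q T k X) {u v : W} (hu : u ∈ X) (hv : v ∈ X) (huv : Q.Adj u v)
    (hnr : v ∉ cp T X u) (hk : ∀ x, dg T x ≤ k) :
    (∃ w, dg T w = k ∧ ∃ R : SimpleGraph W, R ≤ Q ∧ R.Connected ∧ dg R w + 1 ≤ k ∧
      ∀ x, dg R x + 1 ≤ k ∨ dg R x ≤ dg T x) ∨ ∃ Y : Set W, X ⊂ Y ∧ Adm Q T k Y := by
  classical
  obtain ⟨P, hP⟩ := hTc.exists_isPath u v
  obtain ⟨Ru, hRuQ, hRus, hRuc, hRud, hRuu⟩ := hX.2 u hu
  obtain ⟨Rv, hRvQ, hRvs, hRvc, hRvd, hRvv⟩ := hX.2 v hv
  have hd : ∀ x ∈ cp T X u, x ∉ cp T X v := by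
    intro x hx hx'
    exact hnr (Reachable.trans hx (Reachable.symm hx'))
  have huu := mem_cp_self T X u
  have hvv := mem_cp_self T X v
  by_cases hbad : ∃ w ∈ P.support, dg T w = k
  · obtain ⟨w, hwP, hwk⟩ := hbad
    left
    have hwX : w ∉ X := fun h => by
      have := hX.1 w h
      omega
    have hwu : w ∉ cp T X u := fun h => hwX (cp_sub T hu h)
    have hwv : w ∉ cp T X v := fun h => hwX (cp_sub T hv h)
    have hT' : T.Connected := hTc
    obtain ⟨R, h1, h2, h3, h4, h5, h6, h7, h8, h9⟩ := swap_lemma Q T hTQ Set.univ (cp T X u)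
      (cp T X v) Ru Rv hRuQ hRvQ hRus hRvs hRuc hRvc (Set.subset_univ _) (Set.subset_univ _) hd
      u v w huu hvv hwu hwv P hP (fun _ _ => Set.mem_univ _) hwP huv (by
        intro x _ y _
        have : res T Set.univ = T := by
          ext a b
          exact ⟨fun h => h.1, fun h => ⟨h, Set.mem_univ _, Set.mem_univ _⟩⟩
        rw [this]
        exact hT'.preconnected x y)
    refine ⟨w, hwk, R, h1, ?_, by omega, fun x => ?_⟩
    · have : Nonempty W := ⟨u⟩
      exact ⟨fun x y => h3 x (Set.mem_univ _) y (Set.mem_univ _)⟩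
    · by_cases hxu : x ∈ cp T X u
      · left
        by_cases hxu' : x = u
        · subst hxu'
          omega
        · have := h5 x hxu hxu'
          have := hRud x hxu
          omega
      by_cases hxv : x ∈ cp T X v
      · left
        by_cases hxv' : x = v
        · subst hxv'
          omega
        · have := h7 x hxv hxv'
          have := hRvd x hxv
          omega
      right
      have := h9 x (Set.mem_univ _) hxu hxv
      omega
  · right
    push Not at hbad
    have hPk : ∀ w ∈ P.support, dg T w + 1 ≤ k := by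
      intro w hw
      have h1 := hbad w hw
      have h2 := hk w
      omega
    set Y : Set W := X ∪ {w | w ∈ P.support} with hY
    have hXY : X ⊆ Y := Set.subset_union_left
    have hPY : ∀ w ∈ P.support, w ∈ Y := fun w hw => Or.inr hw
    have hYk : ∀ x ∈ Y, dg T x + 1 ≤ k := by
      rintro x (hx | hx)
      · exact hX.1 x hx
      · exact hPk x hx
    refine ⟨Y, ?_, hYk, ?_⟩
    · refine ⟨hXY, fun h => hnr ?_⟩
      exact walk_res P (fun z hz => h (hPY z hz))
    · intro w hw
      by_cases hwX : w ∈ X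
      · exact md_mono hTQ hXY hwX (hX.2 w hwX) hYk
      have hwP : w ∈ P.support := by
        rcases hw with h | h
        · exact absurd h hwX
        · exact h
      have hPw : ∀ x ∈ P.support, x ∈ cp T Y w := by
        intro x hx
        have hr : ∀ z ∈ P.support, (res T Y).Reachable u z := by
          intro z hz
          exact walk_res (P.takeUntil z hz) (fun t ht => hPY t (P.support_takeUntil_subset_support hz ht))
        exact (hr w hwP).symm.trans (hr x hx)
      have hCu : cp T X u ⊆ cp T Y w := by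
        rw [← cp_eq (hPw u (Walk.start_mem_support P))]
        exact cp_mono hXY u
      have hCv : cp T X v ⊆ cp T Y w := by
        rw [← cp_eq (hPw v (Walk.end_mem_support P))]
        exact cp_mono hXY v
      have hwu : w ∉ cp T X u := fun h => hwX (cp_sub T hu h)
      have hwv : w ∉ cp T X v := fun h => hwX (cp_sub T hv h)
      obtain ⟨R, h1, h2, h3, h4, h5, h6, h7, h8, h9⟩ := swap_lemma Q T hTQ (cp T Y w) (cp T X u)
        (cp T X v) Ru Rv hRuQ hRvQ hRus hRvs hRuc hRvc hCu hCv hd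
        u v w huu hvv hwu hwv P hP hPw hwP huv (fun x hx y hy => cp_reach hx hy)
      refine ⟨R, h1, h2, h3, fun x hx => ?_, ?_⟩
      · by_cases hxu : x ∈ cp T X u
        · by_cases hxu' : x = u
          · subst hxu'
            omega
          · have := h5 x hxu hxu'
            have := hRud x hxu
            omega
        by_cases hxv : x ∈ cp T X v
        · by_cases hxv' : x = v
          · subst hxv'
            omega
          · have := h7 x hxv hxv'
            have := hRvd x hxv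
            omega
        have := h9 x hx hxu hxv
        have := hYk x (cp_sub T hw hx)
        omega
      · have := hPk w hwP
        omega

/-- the potential -/
noncomputable def pot (T : SimpleGraph W) : ℕ := ∑ v, (Fintype.card W + 1) ^ dg T v

theorem pot_lt {T R : SimpleGraph W} {k : ℕ} {w : W} (hw : dg T w = k) (hRw : dg R w + 1 ≤ k)
    (h : ∀ x, dg R x + 1 ≤ k ∨ dg R x ≤ dg T x) : pot R < pot T := by
  classical
  obtain ⟨l, rfl⟩ : ∃ l, k = l + 1 := ⟨k - 1, by omega⟩
  unfold pot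
  set b := Fintype.card W + 1 with hb
  have hb1 : 1 ≤ b := by omega
  have h1 : ∀ x ∈ univ.erase w, b ^ dg R x ≤ b ^ dg T x + b ^ l := by
    intro x _
    rcases h x with h | h
    · exact (Nat.pow_le_pow_right hb1 (by omega)).trans (Nat.le_add_left _ _)
    · exact (Nat.pow_le_pow_right hb1 h).trans (Nat.le_add_right _ _)
  rw [← add_sum_erase univ _ (mem_univ w), ← add_sum_erase univ (fun v => b ^ dg T v) (mem_univ w)]
  have h2 := sum_le_sum h1
  rw [sum_add_distrib, sum_const, smul_eq_mul, card_erase_of_mem (mem_univ w), card_univ] at h2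
  have h3 : b ^ dg R w ≤ b ^ l := Nat.pow_le_pow_right hb1 (by omega)
  have h4 : b ^ dg T w = b ^ l * b := by rw [hw, pow_succ]
  have h5 : 0 < b ^ l := Nat.pow_pos hb1
  have h6 : 0 < Fintype.card W := Fintype.card_pos_iff.2 ⟨w⟩
  have h7 : (Fintype.card W - 1) * b ^ l + b ^ l = Fintype.card W * b ^ l := by
    obtain ⟨c, hc⟩ : ∃ c, Fintype.card W = c + 1 := ⟨Fintype.card W - 1, by omega⟩
    rw [hc]
    simp only [Nat.add_sub_cancel]
    ring
  have h8 : b ^ l * b = Fintype.card W * b ^ l + b ^ l := by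
    rw [hb]
    ring
  rw [h4]
  omega

/-- **Spanning trees of maximum degree three** (Win). -/
theorem exists_deg_three (Q : SimpleGraph W) (hQ : Q.Connected)
    (htough : ∀ S : Finset W, S.Nonempty → ∀ (I : Finset W) (K : W → Set W), (∀ x ∈ I, x ∈ K x) →
      (∀ x ∈ I, ∀ y ∈ K x, y ∉ S) → (∀ x ∈ I, ∀ u ∈ K x, ∀ y, Q.Adj u y → y ∉ S → y ∈ K x) →
      (∀ x ∈ I, ∀ y ∈ I, x ≠ y → ∀ z ∈ K x, z ∉ K y) → I.card ≤ S.card + 2) :
    ∃ T : SimpleGraph W, T ≤ Q ∧ T.Connected ∧ ∀ v, dg T v ≤ 3 := by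
  classical
  -- a connected spanning subgraph with least potential
  obtain ⟨T, hT0, hmin⟩ := exists_min_image
    (univ.filter fun T : SimpleGraph W => T ≤ Q ∧ T.Connected) pot
    ⟨Q, mem_filter.2 ⟨mem_univ _, le_rfl, hQ⟩⟩
  obtain ⟨hTQ, hTc⟩ := (mem_filter.1 hT0).2
  have hmin' : ∀ R : SimpleGraph W, R ≤ Q → R.Connected → pot T ≤ pot R := fun R h1 h2 =>
    hmin R (mem_filter.2 ⟨mem_univ _, h1, h2⟩)
  refine ⟨T, hTQ, hTc, ?_⟩
  by_contra hcon
  push Not at hcon
  obtain ⟨v0, hv0⟩ := hcon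
  have : Nonempty W := ⟨v0⟩
  obtain ⟨w0, hw0⟩ := Finite.exists_max (dg T)
  set k := dg T w0 with hk
  have hk4 : 4 ≤ k := by
    have := hw0 v0
    omega
  -- T is a tree
  have hTt : T.IsTree := by
    apply isTree_of_minimal_connected
    refine ⟨hTc, fun R hR hRT => ?_⟩
    by_contra hne
    have hlt : ∃ x y, T.Adj x y ∧ ¬ R.Adj x y := by
      by_contra hno
      push Not at hno
      exact hne fun x y h => hno x y h
    obtain ⟨x, y, hxy, hnxy⟩ := hlt
    have h1 : ∀ v, dg R v ≤ dg T v := fun v => card_le_card fun z hz =>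
      mem_filter.2 ⟨mem_univ _, hRT (mem_filter.1 hz).2⟩
    have h2 : dg R x < dg T x := by
      apply card_lt_card
      refine ⟨fun z hz => mem_filter.2 ⟨mem_univ _, hRT (mem_filter.1 hz).2⟩, fun h => hnxy ?_⟩
      exact (mem_filter.1 (h (mem_filter.2 ⟨mem_univ y, hxy⟩))).2
    have h3 : pot R < pot T := by
      unfold pot
      refine sum_lt_sum (fun v _ => Nat.pow_le_pow_right (by omega) (h1 v)) ⟨x, mem_univ _, ?_⟩
      have : 0 < Fintype.card W := Fintype.card_pos
      exact Nat.pow_lt_pow_right (by omega) h2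
    have h4 := hmin' R (hRT.trans hTQ) hR
    omega
  -- a maximal admissible set
  obtain ⟨X, hX, hXmax⟩ : ∃ X : Set W, Adm Q T k X ∧ ∀ Y, Adm Q T k Y → ¬ X ⊂ Y := by
    obtain ⟨X, hX, hXm⟩ := exists_max_image (univ.filter fun X : Set W => Adm Q T k X)
      (fun X => X.ncard) ⟨∅, mem_filter.2 ⟨mem_univ _, fun x hx => absurd hx (by simp),
        fun x hx => absurd hx (by simp)⟩⟩
    refine ⟨X, (mem_filter.1 hX).2, fun Y hY hXY => ?_⟩
    have h1 := hXm Y (mem_filter.2 ⟨mem_univ _, hY⟩)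
    have h2 := Set.ncard_lt_ncard hXY (Set.toFinite Y)
    omega
  have hlow : ∀ w, w ∉ X → k ≤ dg T w + 1 := by
    intro w hw
    by_contra hlt
    exact hXmax _ (adm_low hTQ hX (w := w) (by omega)) (Set.ssubset_insert hw)
  have hno : ∀ u ∈ X, ∀ v ∈ X, Q.Adj u v → v ∈ cp T X u := by
    intro u hu v hv huv
    by_contra hnr
    rcases adm_path hTQ hTc hX hu hv huv hnr hw0 with ⟨w, hwk, R, h1, h2, h3, h4⟩ | ⟨Y, hXY, hY⟩
    · have h5 := pot_lt hwk h3 h4
      have h6 := hmin' R h1 h2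
      omega
    · exact hXmax Y hY hXY
  -- counting
  set S : Finset W := univ.filter fun x => x ∉ X with hS
  have hw0X : w0 ∉ X := fun h => by
    have := hX.1 w0 h
    omega
  have hw0S : w0 ∈ S := mem_filter.2 ⟨mem_univ _, hw0X⟩
  obtain ⟨I, K, h1, h2, h3, h4, h5⟩ := tree_pieces T hTt S ⟨w0, hw0S⟩
  have hXS : ∀ y, y ∉ S → y ∈ X := by
    intro y hy
    by_contra h
    exact hy (mem_filter.2 ⟨mem_univ _, h⟩)
  have hcp : ∀ x ∈ I, ∀ u ∈ K x, cp T X u ⊆ K x := by
    intro x hx u hu y hy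
    have h : Relation.ReflTransGen (res T X).Adj u y := (reachable_iff_reflTransGen u y).1 hy
    clear hy
    induction h with
    | refl => exact hu
    | @tail b c _ h6 ih =>
      exact h3 x hx b ih c h6.1 (fun h => (mem_filter.1 h).2 h6.2.2)
  have h6 := htough S ⟨w0, hw0S⟩ I K h1 h2 (by
    intro x hx u hu y huy hyS
    exact hcp x hx u hu (hno u (hXS u (h2 x hx u hu)) y (hXS y hyS) huy)) h4
  have h7 : 3 * S.card + 1 ≤ ∑ s ∈ S, dg T s := by
    rw [← add_sum_erase S _ hw0S]
    have h8 : (S.erase w0).card * 3 ≤ ∑ s ∈ S.erase w0, dg T s := by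
      rw [← smul_eq_mul]
      refine card_nsmul_le_sum _ _ _ fun s hs => ?_
      have := hlow s (mem_filter.1 (mem_of_mem_erase hs)).2
      omega
    have h9 : (S.erase w0).card + 1 = S.card := card_erase_add_one hw0S
    omega
  omega

end Pool.Agent.Q112.CH
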