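import Pool.Agent.Q112.CH.Augment

/-!
# Connected Cayley graphs of finite groups have spanning trees of maximum degree three

A connected Cayley graph of degree `d` is `d`-edge-connected (Mader), so the deletion of a nonempty
set `S` of vertices leaves at most `|S|` components.
-/

set_option autoImplicit false

namespace Pool.Agent.Q112.CH

open Finset SimpleGraph

variable {Γ : Type*} [Group Γ]

/-- the Cayley graph -/
def cay (B : Set Γ) (hB : ∀ b ∈ B, b⁻¹ ∈ B) : SimpleGraph Γ where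
  Adj x y := x ≠ y ∧ x⁻¹ * y ∈ B
  symm := ⟨fun x y h => ⟨h.1.symm, by
    have := hB _ h.2
    rwa [mul_inv_rev, inv_inv] at this⟩⟩
  loopless := ⟨fun _ h => h.1 rfl⟩

theorem cay_connected [Finite Γ] (B : Set Γ) (hB : ∀ b ∈ B, b⁻¹ ∈ B)
    (hgen : Subgroup.closure B = ⊤) : (cay B hB).Connected := by
  have key : ∀ g : Γ, g ∈ Subgroup.closure B → ∀ x, (cay B hB).Reachable x (x * g) := by
    intro g hg
    induction hg using Subgroup.closure_induction with
    | mem b hb =>
      intro x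
      by_cases h : x = x * b
      · rw [← h]
      · exact Adj.reachable ⟨h, by rwa [inv_mul_cancel_left]⟩
    | one => intro x; rw [mul_one]
    | mul a b _ _ ha hb =>
      intro x
      rw [← mul_assoc]
      exact (ha x).trans (hb (x * a))
    | inv a _ ha =>
      intro x
      have h := ha (x * a⁻¹)
      rw [inv_mul_cancel_right] at h
      exact h.symm
  have hne : Nonempty Γ := ⟨1⟩
  refine ⟨fun x y => ?_⟩
  have h := key (x⁻¹ * y) (by rw [hgen]; exact Subgroup.mem_top _) x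
  rwa [mul_inv_cancel_left] at h

variable [Fintype Γ]

open Classical in
/-- number of the arcs of `Q` leaving `K` -/
noncomputable def bd {W : Type*} [Fintype W] (Q : SimpleGraph W) (K : Finset W) : ℕ :=
  ∑ x, ∑ y, if Q.Adj x y ∧ x ∈ K ∧ y ∉ K then 1 else 0

theorem bd_submod {W : Type*} [Fintype W] [DecidableEq W] (Q : SimpleGraph W) (K L : Finset W) :
    bd Q (K ∩ L) + bd Q (K ∪ L) ≤ bd Q K + bd Q L := by
  classical
  unfold bd
  rw [← sum_add_distrib, ← sum_add_distrib]
  refine sum_le_sum fun x _ => ?_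
  rw [← sum_add_distrib, ← sum_add_distrib]
  refine sum_le_sum fun y _ => ?_
  simp only [mem_inter, mem_union]
  by_cases h0 : Q.Adj x y
  · by_cases h1 : x ∈ K <;> by_cases h2 : x ∈ L <;> by_cases h3 : y ∈ K <;> by_cases h4 : y ∈ L <;>
      simp [h0, h1, h2, h3, h4]
  · simp [h0]

theorem bd_compl {W : Type*} [Fintype W] [DecidableEq W] (Q : SimpleGraph W) (K : Finset W) :
    bd Q Kᶜ = bd Q K := by
  classical
  unfold bd
  rw [sum_comm]
  refine sum_congr rfl fun x _ => sum_congr rfl fun y _ => ?_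
  congr 1
  rw [mem_compl, mem_compl, not_not, Q.adj_comm]
  exact propext ⟨fun h => ⟨h.1, h.2.2, h.2.1⟩, fun h => ⟨h.1, h.2.2, h.2.1⟩⟩

theorem bd_translate [DecidableEq Γ] (B : Set Γ) (hB : ∀ b ∈ B, b⁻¹ ∈ B) (g : Γ) (K : Finset Γ) :
    bd (cay B hB) (K.image (fun x => g * x)) = bd (cay B hB) K := by
  classical
  unfold bd
  symm
  refine Fintype.sum_equiv (Equiv.mulLeft g) _ _ fun x => ?_
  refine Fintype.sum_equiv (Equiv.mulLeft g) _ _ fun y => ?_
  have h1 : ∀ z, (Equiv.mulLeft g) z ∈ K.image (fun x => g * x) ↔ z ∈ K := by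
    intro z
    rw [mem_image]
    constructor
    · rintro ⟨a, ha, h⟩
      have : a = z := mul_left_cancel h
      rwa [← this]
    · intro h
      exact ⟨z, h, rfl⟩
  have h2 : (cay B hB).Adj ((Equiv.mulLeft g) x) ((Equiv.mulLeft g) y) ↔ (cay B hB).Adj x y := by
    show (g * x ≠ g * y ∧ (g * x)⁻¹ * (g * y) ∈ B) ↔ (x ≠ y ∧ x⁻¹ * y ∈ B)
    rw [mul_inv_rev, mul_assoc, inv_mul_cancel_left, ne_eq, mul_right_inj]
  have h3 : ((cay B hB).Adj ((Equiv.mulLeft g) x) ((Equiv.mulLeft g) y) ∧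
      (Equiv.mulLeft g) x ∈ K.image (fun x => g * x) ∧
      (Equiv.mulLeft g) y ∉ K.image (fun x => g * x)) ↔ ((cay B hB).Adj x y ∧ x ∈ K ∧ y ∉ K) := by
    rw [h1, h1, h2]
  by_cases hh : (cay B hB).Adj x y ∧ x ∈ K ∧ y ∉ K
  · rw [if_pos hh, if_pos (h3.2 hh)]
  · rw [if_neg hh, if_neg fun h => hh (h3.1 h)]

open Classical in
/-- the degree of the Cayley graph -/
noncomputable def cdeg (B : Set Γ) : ℕ := (univ.filter fun b : Γ => b ∈ B ∧ b ≠ 1).card

theorem nbrs_card (B : Set Γ) (hB : ∀ b ∈ B, b⁻¹ ∈ B) (P : Γ → Prop) [DecidablePred P] (x : Γ)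
    [DecidablePred fun y => (cay B hB).Adj x y ∧ P y]
    [DecidablePred fun b : Γ => (b ∈ B ∧ b ≠ 1) ∧ P (x * b)] :
    (univ.filter fun y => (cay B hB).Adj x y ∧ P y).card =
      (univ.filter fun b : Γ => (b ∈ B ∧ b ≠ 1) ∧ P (x * b)).card := by
  symm
  refine card_bij (fun b _ => x * b) ?_ ?_ ?_
  · intro b hb
    obtain ⟨-, ⟨h1, h2⟩, h3⟩ := mem_filter.1 hb
    refine mem_filter.2 ⟨mem_univ _, ⟨?_, ?_⟩, h3⟩
    · intro h
      exact h2 (by simpa using h.symm)
    · rwa [inv_mul_cancel_left]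
  · intro b _ b' _ h
    exact mul_left_cancel h
  · intro y hy
    obtain ⟨-, ⟨h1, h2⟩, h3⟩ := mem_filter.1 hy
    refine ⟨x⁻¹ * y, mem_filter.2 ⟨mem_univ _, ⟨h2, fun h => h1 ?_⟩, ?_⟩, mul_inv_cancel_left x y⟩
    · rw [inv_mul_eq_one] at h
      exact h
    · rwa [mul_inv_cancel_left]

theorem dg_cay (B : Set Γ) (hB : ∀ b ∈ B, b⁻¹ ∈ B) (x : Γ) : dg (cay B hB) x = cdeg B := by
  classical
  have h := nbrs_card B hB (fun _ => True) x
  simp only [and_true] at h
  unfold dg cdeg
  convert h using 2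

/-- **Mader's theorem for Cayley graphs**: the edge connectivity is the degree. -/
theorem edge_conn (B : Set Γ) (hB : ∀ b ∈ B, b⁻¹ ∈ B) (hgen : Subgroup.closure B = ⊤)
    (K : Finset Γ) (hK : K.Nonempty) (hK' : K ≠ univ) : cdeg B ≤ bd (cay B hB) K := by
  classical
  set Q := cay B hB with hQ
  -- least boundary, then least size
  set F : Finset (Finset Γ) := univ.filter fun K => K.Nonempty ∧ K ≠ univ with hF
  have hKF : K ∈ F := mem_filter.2 ⟨mem_univ _, hK, hK'⟩
  obtain ⟨K1, hK1F, hK1⟩ := exists_min_image F (bd Q) ⟨K, hKF⟩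
  set lam := bd Q K1 with hlam
  set F' : Finset (Finset Γ) := F.filter fun K => bd Q K = lam with hF'
  obtain ⟨M, hMF, hM⟩ := exists_min_image F' card ⟨K1, mem_filter.2 ⟨hK1F, rfl⟩⟩
  obtain ⟨hMF1, hMl⟩ := mem_filter.1 hMF
  obtain ⟨-, hMne, hMun⟩ := mem_filter.1 hMF1
  -- translate so that 1 is a member
  obtain ⟨m, hm⟩ := hMne
  set H : Finset Γ := M.image (fun x => m⁻¹ * x) with hH
  have hinj : ∀ g : Γ, Function.Injective (fun x : Γ => g * x) := fun g => mul_right_injective g
  have hHcard : H.card = M.card := card_image_of_injective _ (hinj _)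
  have h1H : (1 : Γ) ∈ H := mem_image.2 ⟨m, hm, inv_mul_cancel m⟩
  have hHl : bd Q H = lam := by rw [hH, hQ, bd_translate, ← hQ]; exact hMl
  have hMlt : M.card < Fintype.card Γ := by
    rw [← card_univ]
    exact card_lt_card (Finset.ssubset_univ_iff.2 hMun)
  have hmin : ∀ L : Finset Γ, L.Nonempty → L.card < Fintype.card Γ → lam ≤ bd Q L := by
    intro L hL hL'
    refine hK1 L (mem_filter.2 ⟨mem_univ _, hL, ?_⟩)
    rintro rfl
    rw [card_univ] at hL'
    exact lt_irrefl _ hL'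
  have hmin2 : ∀ L : Finset Γ, L.Nonempty → L.card < Fintype.card Γ → bd Q L = lam →
      H.card ≤ L.card := by
    intro L hL hL' hLl
    rw [hHcard]
    refine hM L (mem_filter.2 ⟨mem_filter.2 ⟨mem_univ _, hL, ?_⟩, hLl⟩)
    rintro rfl
    rw [card_univ] at hL'
    exact lt_irrefl _ hL'
  have hH2 : 2 * H.card ≤ Fintype.card Γ := by
    have h2 : Hᶜ.card = Fintype.card Γ - H.card := card_compl H
    have h3 := hmin2 Hᶜ (card_pos.1 (by omega)) (by
      have : 0 < H.card := card_pos.2 ⟨1, h1H⟩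
      omega) (by rw [bd_compl]; exact hHl)
    omega
  have hHpos : 0 < H.card := card_pos.2 ⟨1, h1H⟩
  -- H is closed under multiplication
  have hblock : ∀ g ∈ H, H.image (fun x => g * x) = H := by
    intro g hg
    set L := H.image (fun x => g * x) with hL
    have hLcard : L.card = H.card := card_image_of_injective _ (hinj g)
    have hgL : g ∈ L := mem_image.2 ⟨1, h1H, mul_one g⟩
    have hLl : bd Q L = lam := by rw [hL, hQ, bd_translate, ← hQ]; exact hHl
    have hsub := bd_submod Q H L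
    have hint : g ∈ H ∩ L := mem_inter.2 ⟨hg, hgL⟩
    have hc := card_union_add_card_inter H L
    have hci : 0 < (H ∩ L).card := card_pos.2 ⟨g, hint⟩
    have hi1 : (H ∩ L).card ≤ H.card := card_le_card inter_subset_left
    have e1 := hmin (H ∩ L) ⟨g, hint⟩ (by omega)
    have e2 := hmin (H ∪ L) ⟨g, mem_union_left _ hg⟩ (by omega)
    have e3 := hmin2 (H ∩ L) ⟨g, hint⟩ (by omega) (by omega)
    have e4 : H ∩ L = H := eq_of_subset_of_card_le inter_subset_left e3
    have e5 : H ⊆ L := fun x hx => (mem_inter.1 (e4.symm ▸ hx : x ∈ H ∩ L)).2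
    exact (eq_of_subset_of_card_le e5 (by omega)).symm
  have hmem : ∀ x ∈ H, ∀ b, x * b ∈ H ↔ b ∈ H := by
    intro x hx b
    constructor
    · intro h
      rw [← hblock x hx, mem_image] at h
      obtain ⟨a, ha, hab⟩ := h
      have : a = b := mul_left_cancel hab
      rwa [← this]
    · intro h
      rw [← hblock x hx]
      exact mem_image.2 ⟨b, h, rfl⟩
  -- some generator is outside H
  have hout : ∃ b ∈ B, b ∉ H := by
    by_contra hno
    push Not at hno
    have hsub : ∀ g ∈ Subgroup.closure B, g ∈ H := by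
      intro g hg
      induction hg using Subgroup.closure_induction with
      | mem b hb => exact hno b hb
      | one => exact h1H
      | mul a b _ _ ha hb => exact (hmem a ha b).2 hb
      | inv a _ ha =>
        rw [← hmem a ha, mul_inv_cancel]
        exact h1H
    have : H.card = Fintype.card Γ := by
      rw [← card_univ]
      congr 1
      ext g
      exact ⟨fun _ => mem_univ g, fun _ => hsub g (by rw [hgen]; exact Subgroup.mem_top _)⟩
    omega
  -- the boundary of H
  have hbdH : bd Q H = H.card * (univ.filter fun b : Γ => (b ∈ B ∧ b ≠ 1) ∧ b ∉ H).card := by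
    unfold bd
    have h3 : ∀ x, (∑ y, if Q.Adj x y ∧ x ∈ H ∧ y ∉ H then 1 else 0) =
        if x ∈ H then (univ.filter fun b : Γ => (b ∈ B ∧ b ≠ 1) ∧ b ∉ H).card else 0 := by
      intro x
      by_cases hx : x ∈ H
      · rw [if_pos hx, ← card_filter]
        have h4 := nbrs_card B hB (fun y => y ∉ H) x
        have h5 : (univ.filter fun b : Γ => (b ∈ B ∧ b ≠ 1) ∧ x * b ∉ H) =
            univ.filter fun b : Γ => (b ∈ B ∧ b ≠ 1) ∧ b ∉ H := by
          ext b
          rw [mem_filter, mem_filter, hmem x hx b]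
        rw [← h5, ← h4]
        congr 1
        ext y
        rw [mem_filter, mem_filter]
        exact ⟨fun h => ⟨h.1, h.2.1, h.2.2.2⟩, fun h => ⟨h.1, h.2.1, hx, h.2.2⟩⟩
      · rw [if_neg hx]
        refine sum_eq_zero fun y _ => if_neg fun h => hx h.2.1
    rw [sum_congr rfl fun x _ => h3 x, ← sum_filter, sum_const, smul_eq_mul]
    congr 2
    ext x
    rw [mem_filter]
    exact ⟨fun h => h.2, fun h => ⟨mem_univ _, h⟩⟩
  have hsplit : cdeg B = (univ.filter fun b : Γ => (b ∈ B ∧ b ≠ 1) ∧ b ∈ H).card +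
      (univ.filter fun b : Γ => (b ∈ B ∧ b ≠ 1) ∧ b ∉ H).card := by
    unfold cdeg
    rw [← card_filter_add_card_filter_not (s := univ.filter fun b : Γ => b ∈ B ∧ b ≠ 1)
      (fun b => b ∈ H), filter_filter, filter_filter]
  have hin : (univ.filter fun b : Γ => (b ∈ B ∧ b ≠ 1) ∧ b ∈ H).card ≤ (H.erase 1).card := by
    refine card_le_card fun b hb => ?_
    obtain ⟨-, ⟨_, h4⟩, h5⟩ := mem_filter.1 hb
    exact mem_erase.2 ⟨h4, h5⟩
  have herase : (H.erase 1).card + 1 = H.card := card_erase_add_one h1H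
  obtain ⟨b0, hb0, hb0H⟩ := hout
  have hpos : 0 < (univ.filter fun b : Γ => (b ∈ B ∧ b ≠ 1) ∧ b ∉ H).card := by
    refine card_pos.2 ⟨b0, mem_filter.2 ⟨mem_univ _, ⟨hb0, ?_⟩, hb0H⟩⟩
    rintro rfl
    exact hb0H h1H
  have hle : lam ≤ bd Q K := hK1 K hKF
  rw [← hHl, hbdH] at hle
  set p := (univ.filter fun b : Γ => (b ∈ B ∧ b ≠ 1) ∧ b ∉ H).card with hp
  obtain ⟨q, hq⟩ : ∃ q, p = q + 1 := ⟨p - 1, by omega⟩
  obtain ⟨h', hh'⟩ : ∃ h', H.card = h' + 1 := ⟨H.card - 1, by omega⟩
  rw [hq, hh'] at hle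
  rw [hsplit, hq]
  nlinarith

/-- **Spanning trees of maximum degree three in Cayley graphs.** -/
theorem cay_deg_three (B : Set Γ) (hB : ∀ b ∈ B, b⁻¹ ∈ B) (hgen : Subgroup.closure B = ⊤) :
    ∃ T : SimpleGraph Γ, T ≤ cay B hB ∧ T.Connected ∧ ∀ v, dg T v ≤ 3 := by
  classical
  refine exists_deg_three (cay B hB) (cay_connected B hB hgen) ?_
  intro S hS I K h1 h2 h3 h4
  rcases I.eq_empty_or_nonempty with hI | ⟨i0, hi0⟩
  · rw [hI, card_empty]
    omega
  set Kf : Γ → Finset Γ := fun x => univ.filter fun y => y ∈ K x with hKf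
  obtain ⟨s0, hs0⟩ := hS
  have hb : ∀ x ∈ I, cdeg B ≤ bd (cay B hB) (Kf x) := by
    intro x hx
    refine edge_conn B hB hgen (Kf x) ⟨x, mem_filter.2 ⟨mem_univ _, h1 x hx⟩⟩ fun h => ?_
    have : s0 ∈ Kf x := by rw [h]; exact mem_univ _
    exact h2 x hx s0 (mem_filter.1 this).2 hs0
  have hsum : ∑ x ∈ I, bd (cay B hB) (Kf x) ≤ ∑ s ∈ S, dg (cay B hB) s := by
    unfold bd dg
    rw [sum_comm]
    have h5 : ∀ u, (∑ x ∈ I, ∑ y, if (cay B hB).Adj u y ∧ u ∈ Kf x ∧ y ∉ Kf x then 1 else 0) ≤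
        ∑ s ∈ S, if (cay B hB).Adj s u then 1 else 0 := by
      intro u
      by_cases hu : ∃ x ∈ I, u ∈ K x
      · obtain ⟨x, hx, hux⟩ := hu
        rw [sum_eq_single x]
        · rw [← sum_filter_add_sum_filter_not univ (fun y => y ∈ S)]
          have h6 : ∑ y with y ∉ S, (if (cay B hB).Adj u y ∧ u ∈ Kf x ∧ y ∉ Kf x then 1 else 0) =
              0 := by
            refine sum_eq_zero fun y hy => if_neg fun h => ?_
            exact h.2.2 (mem_filter.2 ⟨mem_univ _, h3 x hx u hux y h.1 (mem_filter.1 hy).2⟩)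
          rw [h6, add_zero]
          have h7 : (univ.filter fun y => y ∈ S) = S := by
            ext y
            rw [mem_filter]
            exact ⟨fun h => h.2, fun h => ⟨mem_univ _, h⟩⟩
          rw [h7]
          refine sum_le_sum fun y _ => ?_
          by_cases h8 : (cay B hB).Adj u y
          · rw [if_pos h8.symm]
            split_ifs <;> omega
          · rw [if_neg fun h => h8 h.1]
            exact Nat.zero_le _
        · intro x' hx' hne
          refine sum_eq_zero fun y _ => if_neg fun h => ?_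
          exact h4 x hx x' hx' hne.symm u hux (mem_filter.1 h.2.1).2
        · intro h
          exact absurd hx h
      · push Not at hu
        refine le_trans (le_of_eq (sum_eq_zero fun x hx => sum_eq_zero fun y _ => if_neg ?_))
          (Nat.zero_le _)
        intro h
        exact hu x hx (mem_filter.1 h.2.1).2
    refine (sum_le_sum fun u _ => h5 u).trans (le_of_eq ?_)
    rw [sum_comm]
    refine sum_congr rfl fun s _ => ?_
    rw [card_filter]
  have h6 : I.card * cdeg B ≤ S.card * cdeg B := by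
    calc I.card * cdeg B = ∑ _x ∈ I, cdeg B := by rw [sum_const, smul_eq_mul]
      _ ≤ ∑ x ∈ I, bd (cay B hB) (Kf x) := sum_le_sum hb
      _ ≤ ∑ s ∈ S, dg (cay B hB) s := hsum
      _ = S.card * cdeg B := by
        rw [sum_congr rfl fun s _ => dg_cay B hB s, sum_const, smul_eq_mul]
  by_cases hd : cdeg B = 0
  · -- then the group is trivial
    exfalso
    have h7 : ∀ b ∈ B, b = 1 := by
      intro b hb
      by_contra hb1
      unfold cdeg at hd
      rw [card_eq_zero] at hd
      have : b ∈ univ.filter fun b : Γ => b ∈ B ∧ b ≠ 1 := mem_filter.2 ⟨mem_univ _, hb, hb1⟩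
      rw [hd] at this
      simp at this
    have h8 : Subgroup.closure B = ⊥ := (Subgroup.closure_eq_bot_iff).2 fun b hb => h7 b hb
    rw [hgen] at h8
    have h9 : ∀ x : Γ, x = 1 := by
      intro x
      have : x ∈ (⊤ : Subgroup Γ) := Subgroup.mem_top x
      rw [h8] at this
      exact Subgroup.mem_bot.1 this
    have h10 := h2 i0 hi0 i0 (h1 i0 hi0)
    rw [h9 i0, ← h9 s0] at h10
    exact h10 hs0
  · have h7 := Nat.le_of_mul_le_mul_right h6 (Nat.pos_of_ne_zero hd)
    omega

end Pool.Agent.Q112.CH
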