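import Pool.Agent.Q112.CH.Lift

/-!
# Generating sets that contain a conjugation-closed set
-/

set_option autoImplicit false

namespace Pool.Agent.Q112.CH

open Finset SimpleGraph Equiv
open Q238.RS (HCyc isCycleOn_merge)

variable {G : Type*} [Group G]

theorem mulLeft_conj_apply (g : G) (k : Perm G) (z : G) :
    (Equiv.mulLeft g * k * (Equiv.mulLeft g)⁻¹) z = g * k (g⁻¹ * z) := by
  rw [Perm.mul_apply, Perm.mul_apply]
  rfl

theorem cycleOn_left {N : Subgroup G} {k : Perm G} (hk : k.IsCycleOn (N : Set G)) {g : G}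
    (hg : g ∈ N) : (Equiv.mulLeft g * k * (Equiv.mulLeft g)⁻¹).IsCycleOn (N : Set G) := by
  have h1 := hk.conj (g := Equiv.mulLeft g)
  have h2 : (Equiv.mulLeft g) '' (N : Set G) = (N : Set G) := by
    ext z
    constructor
    · rintro ⟨a, ha, rfl⟩
      exact mul_mem hg ha
    · intro hz
      exact ⟨g⁻¹ * z, mul_mem (inv_mem hg) hz, mul_inv_cancel_left g z⟩
  rw [h2] at h1
  exact h1

/-- Hamiltonian paths from a Hamiltonian cycle -/
theorem hpath_of_cycle {B : Set G} {N : Subgroup G} {σ : Perm G} (hσ : σ.IsCycleOn (N : Set G))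
    (hfix : ∀ z, z ∉ N → σ z = z) (hlab : ∀ x ∈ N, x⁻¹ * σ x ∈ B) (hB : ∀ b ∈ B, b⁻¹ ∈ B)
    {x : G} (hx : x ∈ N) : HPath B N 1 (x⁻¹ * σ x) ∧ HPath B N 1 (x⁻¹ * σ x)⁻¹ := by
  have hmem : ∀ z ∈ N, σ z ∈ N := fun z hz => hσ.1.mapsTo hz
  have hσx := hmem x hx
  have hinv : ∀ z ∈ N, σ⁻¹ z ∈ N := by
    intro z hz
    obtain ⟨w, hw, hwz⟩ := hσ.1.surjOn hz
    rw [← hwz, Q238.RS.inv_ap]
    exact hw
  have hinvlab : ∀ z ∈ N, z⁻¹ * σ⁻¹ z ∈ B := by
    intro z hz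
    have h1 := hB _ (hlab (σ⁻¹ z) (hinv z hz))
    rw [Q238.RS.ap_inv, mul_inv_rev, inv_inv] at h1
    exact h1
  have hinvfix : ∀ z, z ∉ N → σ⁻¹ z = z := by
    intro z hz
    rw [Perm.inv_eq_iff_eq]
    exact (hfix z hz).symm
  constructor
  · refine ⟨Equiv.mulLeft x⁻¹ * σ⁻¹ * (Equiv.mulLeft x⁻¹)⁻¹, cycleOn_left hσ.inv (inv_mem hx),
      ?_, ?_, ?_⟩
    · intro z hz
      rw [mulLeft_conj_apply, inv_inv, hinvfix (x * z) (fun h => hz ?_), inv_mul_cancel_left]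
      have := mul_mem (inv_mem hx) h
      rwa [inv_mul_cancel_left] at this
    · rw [mulLeft_conj_apply, inv_inv, mul_inv_cancel_left, Q238.RS.inv_ap, inv_mul_cancel]
    · intro z hz _
      rw [mulLeft_conj_apply, inv_inv]
      have h1 := hinvlab (x * z) (mul_mem hx hz)
      rw [mul_inv_rev, mul_assoc] at h1
      exact h1
  · refine ⟨Equiv.mulLeft (σ x)⁻¹ * σ * (Equiv.mulLeft (σ x)⁻¹)⁻¹, cycleOn_left hσ (inv_mem hσx),
      ?_, ?_, ?_⟩
    · intro z hz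
      rw [mulLeft_conj_apply, inv_inv, hfix (σ x * z) (fun h => hz ?_), inv_mul_cancel_left]
      have := mul_mem (inv_mem hσx) h
      rwa [inv_mul_cancel_left] at this
    · rw [mulLeft_conj_apply, inv_inv, mul_inv_rev, inv_inv, mul_inv_cancel_left, inv_mul_cancel]
    · intro z hz _
      rw [mulLeft_conj_apply, inv_inv]
      have h1 := hlab (σ x * z) (mul_mem hσx hz)
      rw [mul_inv_rev, mul_assoc] at h1
      exact h1

/-- the conjugate of a Hamiltonian cycle of a normal subgroup -/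
theorem cycle_conj {N : Subgroup G} [N.Normal] {σ : Perm G} (hσ : σ.IsCycleOn (N : Set G))
    (hfix : ∀ z, z ∉ N → σ z = z) (g : G) :
    ∃ τ : Perm G, τ.IsCycleOn (N : Set G) ∧ (∀ z, z ∉ N → τ z = z) ∧
      ∀ z, τ z = g⁻¹ * σ (g * z * g⁻¹) * g := by
  set c : Perm G := (MulAut.conj g⁻¹).toEquiv with hc
  have hcap : ∀ z, c z = g⁻¹ * z * g := by
    intro z
    show MulAut.conj g⁻¹ z = _
    rw [MulAut.conj_apply, inv_inv]
  have hcinv : ∀ z, c⁻¹ z = g * z * g⁻¹ := by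
    intro z
    rw [Perm.inv_eq_iff_eq, hcap]
    group
  have hap : ∀ z, (c * σ * c⁻¹) z = g⁻¹ * σ (g * z * g⁻¹) * g := by
    intro z
    rw [Perm.mul_apply, Perm.mul_apply, hcinv, hcap]
  have hN : ∀ z, z ∈ N ↔ g * z * g⁻¹ ∈ N := by
    intro z
    constructor
    · intro h
      exact Subgroup.Normal.conj_mem inferInstance z h g
    · intro h
      have h1 := Subgroup.Normal.conj_mem (inferInstance : N.Normal) _ h g⁻¹
      have h2 : g⁻¹ * (g * z * g⁻¹) * g⁻¹⁻¹ = z := by group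
      rwa [h2] at h1
  refine ⟨c * σ * c⁻¹, ?_, ?_, hap⟩
  · have h1 := hσ.conj (g := c)
    have h2 : c '' (N : Set G) = (N : Set G) := by
      ext z
      constructor
      · rintro ⟨a, ha, rfl⟩
        have ha' : a ∈ N := ha
        show c a ∈ N
        rw [hcap, hN]
        have h3 : g * (g⁻¹ * a * g) * g⁻¹ = a := by group
        rwa [h3]
      · intro hz
        refine ⟨g * z * g⁻¹, (hN z).1 hz, ?_⟩
        rw [hcap]
        group
    rw [h2] at h1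
    exact h1
  · intro z hz
    rw [hap, hfix _ fun h => hz ((hN z).2 h)]
    group

/-- **The conjugation-closed case.** -/
theorem hcyc_normal_subset [Finite G] {A A0 : Set G} (hAinv : ∀ a ∈ A, a⁻¹ ∈ A)
    (hgen : Subgroup.closure A = ⊤) (hsub : A0 ⊆ A) (h0inv : ∀ a ∈ A0, a⁻¹ ∈ A0)
    (h0conj : ∀ a ∈ A0, ∀ g : G, g⁻¹ * a * g ∈ A0)
    (hcard : 3 ≤ Nat.card (Subgroup.closure A0)) : HCyc A (Set.univ : Set G) := by
  set N := Subgroup.closure A0 with hN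
  have hnormal : N.Normal := Q238.RS.closure_normal (A := A0) fun a ha g => by
    have h1 := h0conj a ha g⁻¹
    rwa [inv_inv] at h1
  have hne : Subgroup.closure A0 ≠ ⊥ := by
    intro h
    rw [hN, h, Subgroup.card_bot] at hcard
    omega
  obtain ⟨σ, hσ, hfix, hlab⟩ := Q238.RS.hcyc_closure h0inv h0conj hne
  rw [← hN] at hσ
  have hfix' : ∀ z, z ∉ N → σ z = z := fun z hz => hfix z hz
  have hlab' : ∀ z ∈ N, z⁻¹ * σ z ∈ A0 := fun z hz => hlab z hz
  set B : Set G := {c | ∃ g : G, ∃ x ∈ N, c = g⁻¹ * (x⁻¹ * σ x) * g ∨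
    c = (g⁻¹ * (x⁻¹ * σ x) * g)⁻¹} with hB
  have hBA0 : B ⊆ A0 := by
    rintro c ⟨g, x, hx, rfl | rfl⟩
    · exact h0conj _ (hlab' x hx) g
    · exact h0inv _ (h0conj _ (hlab' x hx) g)
  have hBinv : ∀ b ∈ B, b⁻¹ ∈ B := by
    rintro b ⟨g, x, hx, rfl | rfl⟩
    · exact ⟨g, x, hx, Or.inr rfl⟩
    · exact ⟨g, x, hx, Or.inl (inv_inv _)⟩
  have hBconj : ∀ b ∈ B, ∀ a : G, a⁻¹ * b * a ∈ B := by
    rintro b ⟨g, x, hx, rfl | rfl⟩ a
    · exact ⟨g * a, x, hx, Or.inl (by group)⟩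
    · exact ⟨g * a, x, hx, Or.inr (by group)⟩
  have hP1 : ∀ b ∈ B, HPath B N 1 b := by
    rintro b ⟨g, x, hx, hb⟩
    obtain ⟨τ, hτ, hτfix, hτap⟩ := cycle_conj hσ hfix' g
    have hτlab : ∀ z ∈ N, z⁻¹ * τ z ∈ B := by
      intro z hz
      refine ⟨g, g * z * g⁻¹, Subgroup.Normal.conj_mem hnormal z hz g, Or.inl ?_⟩
      rw [hτap]
      group
    have hx' : g⁻¹ * x * g ∈ N := by
      have h1 := Subgroup.Normal.conj_mem hnormal x hx g⁻¹
      rwa [inv_inv] at h1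
    have h1 := hpath_of_cycle hτ hτfix hτlab hBinv hx'
    have h2 : (g⁻¹ * x * g)⁻¹ * τ (g⁻¹ * x * g) = g⁻¹ * (x⁻¹ * σ x) * g := by
      rw [hτap]
      have h3 : g * (g⁻¹ * x * g) * g⁻¹ = x := by group
      rw [h3]
      group
    rw [h2] at h1
    rcases hb with hb | hb
    · rw [hb]
      exact h1.1
    · rw [hb]
      exact h1.2
  refine lift_main hAinv hgen (hBA0.trans hsub) ?_ hBinv ?_ hP1
    (fun b hb a _ => hP1 _ (hBconj b hb a)) hcard
  · intro b hb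
    exact Subgroup.subset_closure (hBA0 hb)
  · exact ⟨1⁻¹ * (1⁻¹ * σ 1) * 1, 1, 1, one_mem N, Or.inl rfl⟩

end Pool.Agent.Q112.CH
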