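import Pool.Agent.Q112.CH.Tree3

set_option autoImplicit false

namespace Pool.Agent.Q112.CH

open Finset SimpleGraph

variable {W : Type*}

theorem exists_par (T : SimpleGraph W) (hT : T.IsTree) (r : W) :
    ∃ par : W → W, (∀ v w, T.Adj v w → w = par v ∨ v = par w) ∧ par r = r := by
  classical
  choose P hP hPu using fun v => hT.existsUnique_path r v
  refine ⟨fun v => (P v).penultimate, ?_, ?_⟩
  · intro v w hvw
    by_cases hw : w ∈ (P v).support
    · exact Or.inl (hT.isAcyclic.eq_penultimate_of_adj_end (hP v) hvw hw)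
    · right
      have h1 := hPu w ((P v).concat hvw) ((hP v).concat hw hvw)
      show v = (P w).penultimate
      rw [← h1, Walk.penultimate_concat]
  · have h1 := hPu r Walk.nil Walk.IsPath.nil
    show (P r).penultimate = r
    rw [← h1]
    rfl

/-- many pieces of a tree after the deletion of vertices of large degree -/
theorem tree_pieces [Fintype W] (T : SimpleGraph W) (hT : T.IsTree) (S : Finset W)
    (hS : S.Nonempty) : ∃ (I : Finset W) (K : W → Set W), (∀ x ∈ I, x ∈ K x) ∧
      (∀ x ∈ I, ∀ y ∈ K x, y ∉ S) ∧
      (∀ x ∈ I, ∀ u ∈ K x, ∀ y, T.Adj u y → y ∉ S → y ∈ K x) ∧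
      (∀ x ∈ I, ∀ y ∈ I, x ≠ y → ∀ z ∈ K x, z ∉ K y) ∧
      ∑ s ∈ S, dg T s + 2 ≤ I.card + 2 * S.card := by
  classical
  obtain ⟨r, hr⟩ := hS
  obtain ⟨par, hpar, hparr⟩ := exists_par T hT r
  refine ⟨univ.filter fun x => x ∉ S ∧ par x ∈ S,
    fun x => {v | ∃ n : ℕ, par^[n] v = x ∧ ∀ i ≤ n, par^[i] v ∉ S}, ?_, ?_, ?_, ?_, ?_⟩
  · intro x hx
    obtain ⟨-, hx1, hx2⟩ := mem_filter.1 hx
    refine ⟨0, rfl, fun i hi => ?_⟩
    rw [Nat.le_zero.1 hi]
    exact hx1
  · rintro x _ y ⟨n, _, hn⟩
    exact hn 0 (Nat.zero_le n)
  · rintro x hx u ⟨n, hn1, hn2⟩ y huy hyS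
    obtain ⟨-, hx1, hx2⟩ := mem_filter.1 hx
    rcases hpar u y huy with h | h
    · cases n with
      | zero =>
        have hux : u = x := hn1
        rw [h, hux] at hyS
        exact absurd hx2 hyS
      | succ m =>
        refine ⟨m, ?_, fun i hi => ?_⟩
        · rw [h, ← Function.iterate_succ_apply]
          exact hn1
        · rw [h, ← Function.iterate_succ_apply]
          exact hn2 (i + 1) (by omega)
    · refine ⟨n + 1, ?_, fun i hi => ?_⟩
      · rw [Function.iterate_succ_apply, ← h]
        exact hn1
      · cases i with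
        | zero => exact hyS
        | succ i =>
          rw [Function.iterate_succ_apply, ← h]
          exact hn2 i (by omega)
  · rintro x hx y hy hxy z ⟨n, hn1, hn2⟩ ⟨m, hm1, hm2⟩
    obtain ⟨-, hx1, hx2⟩ := mem_filter.1 hx
    obtain ⟨-, hy1, hy2⟩ := mem_filter.1 hy
    rcases lt_trichotomy n m with h | h | h
    · apply hm2 (n + 1) (by omega)
      rw [Function.iterate_succ_apply', hn1]
      exact hx2
    · subst h
      exact hxy (hn1.symm.trans hm1)
    · apply hn2 (m + 1) (by omega)
      rw [Function.iterate_succ_apply', hm1]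
      exact hy2
  · have h1 : ∀ s ∈ S, dg T s ≤ (univ.filter fun v => v ≠ r ∧ par v = s).card +
        (if s = r then 0 else 1) := by
      intro s hs
      by_cases hsr : s = r
      · rw [if_pos hsr, add_zero]
        refine card_le_card fun y hy => ?_
        have hy' : T.Adj s y := (mem_filter.1 hy).2
        rw [mem_filter]
        rcases hpar s y hy' with h | h
        · exfalso
          rw [hsr, hparr] at h
          rw [h, hsr] at hy'
          exact hy'.ne rfl
        · refine ⟨mem_univ _, ?_, h.symm⟩
          rintro rfl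
          rw [hparr] at h
          rw [h] at hy'
          exact hy'.ne rfl
      · rw [if_neg hsr]
        refine le_trans (card_le_card (t := insert (par s)
          (univ.filter fun v => v ≠ r ∧ par v = s)) fun y hy => ?_) (card_insert_le _ _)
        have hy' : T.Adj s y := (mem_filter.1 hy).2
        rw [mem_insert, mem_filter]
        rcases hpar s y hy' with h | h
        · exact Or.inl h
        · refine Or.inr ⟨mem_univ _, ?_, h.symm⟩
          rintro rfl
          rw [hparr] at h
          exact hsr h
    have h2 : ∑ s ∈ S, (univ.filter fun v => v ≠ r ∧ par v = s).card =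
        (univ.filter fun v => v ≠ r ∧ par v ∈ S).card := by
      rw [card_eq_sum_card_fiberwise (f := par) (t := S) (s := univ.filter fun v => v ≠ r ∧ par v ∈ S)]
      · refine sum_congr rfl fun s hs => ?_
        congr 1
        ext v
        simp only [mem_filter, mem_univ, true_and]
        constructor
        · rintro ⟨h3, h4⟩
          exact ⟨⟨h3, h4 ▸ hs⟩, h4⟩
        · rintro ⟨⟨h3, _⟩, h4⟩
          exact ⟨h3, h4⟩
      · intro v hv
        exact (mem_filter.1 hv).2.2
    have h3 : (univ.filter fun v => v ≠ r ∧ par v ∈ S).card ≤ (S.erase r).card +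
        (univ.filter fun x => x ∉ S ∧ par x ∈ S).card := by
      refine le_trans (card_le_card fun v hv => ?_) (card_union_le _ _)
      obtain ⟨-, h4, h5⟩ := mem_filter.1 hv
      rw [mem_union, mem_erase, mem_filter]
      by_cases h6 : v ∈ S
      · exact Or.inl ⟨h4, h6⟩
      · exact Or.inr ⟨mem_univ _, h6, h5⟩
    have h4 : ∑ s ∈ S, (if s = r then 0 else 1) = (S.erase r).card := by
      have h5 : ∀ s ∈ S, (if s = r then 0 else 1) = if s ≠ r then 1 else 0 := by
        intro s _
        by_cases h : s = r
        · rw [if_pos h, if_neg (not_not.2 h)]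
        · rw [if_neg h, if_pos h]
      rw [sum_congr rfl h5, ← card_filter]
      congr 1
      ext s
      rw [mem_filter, mem_erase, and_comm]
    have h5 : (S.erase r).card + 1 = S.card := card_erase_add_one hr
    have h6 := sum_le_sum h1
    rw [sum_add_distrib, h2, h4] at h6
    omega

end Pool.Agent.Q112.CH
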