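import Mathlib

/-!
# Hamilton-connectedness for large minimum degree

If every vertex of a graph on `m` vertices has at least `(m + 1) / 2` neighbours, then any two
different vertices are joined by a Hamiltonian path (Ore).
-/

set_option autoImplicit false

namespace Pool.Agent.Q112.CH

open Finset

variable {V : Type*}

/-- `p 0, …, p (m - 1)` lists `V` from `x` to `y` -/
def Lst (m : ℕ) (x y : V) (p : ℕ → V) : Prop :=
  (∀ i j, i < m → j < m → p i = p j → i = j) ∧ p 0 = x ∧ p (m - 1) = y

open Classical in
/-- number of the bad steps -/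
noncomputable def bad (adj : V → V → Prop) (m : ℕ) (p : ℕ → V) : ℕ :=
  ((range (m - 1)).filter fun k => ¬ adj (p k) (p (k + 1))).card

/-- reversal of the places `i + 1, …, j` -/
def rv (i j : ℕ) (p : ℕ → V) (k : ℕ) : V := if i < k ∧ k ≤ j then p (i + 1 + j - k) else p k

theorem rv_lst {m : ℕ} {x y : V} {p : ℕ → V} (hp : Lst m x y p) {i j : ℕ} (hij : i < j)
    (hj : j + 1 < m) : Lst m x y (rv i j p) := by
  obtain ⟨h1, h2, h3⟩ := hp
  refine ⟨?_, ?_, ?_⟩
  · intro a b ha hb hab
    unfold rv at hab
    split_ifs at hab with ha' hb' hb'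
    · have := h1 _ _ (by omega) (by omega) hab
      omega
    · have := h1 _ _ (by omega) (by omega) hab
      omega
    · have := h1 _ _ (by omega) (by omega) hab
      omega
    · exact h1 _ _ ha hb hab
  · unfold rv
    rw [if_neg (by omega)]
    exact h2
  · unfold rv
    rw [if_neg (by omega)]
    exact h3

theorem rv_bad {adj : V → V → Prop} (hsymm : ∀ x y, adj x y → adj y x) {m : ℕ} {p : ℕ → V}
    {i j : ℕ} (hij : i < j) (hj : j + 1 < m) (h1 : adj (p i) (p j))
    (h2 : adj (p (i + 1)) (p (j + 1)))
    (hb : ¬ adj (p i) (p (i + 1)) ∨ ¬ adj (p j) (p (j + 1))) :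
    bad adj m (rv i j p) < bad adj m p := by
  classical
  unfold bad
  -- an injection of the new bad places into the old ones which misses `i` and `j`
  set F := (range (m - 1)).filter fun k => ¬ adj (p k) (p (k + 1)) with hF
  set F' := (range (m - 1)).filter fun k => ¬ adj (rv i j p k) (rv i j p (k + 1)) with hF'
  have hkey : ∀ k ∈ F', k ≠ i ∧ k ≠ j ∧ (if i < k ∧ k < j then i + j - k else k) ∈ F := by
    intro k hk
    obtain ⟨hk1, hk2⟩ := mem_filter.1 hk
    have hkm := mem_range.1 hk1
    unfold rv at hk2
    by_cases hki : k = i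
    · exfalso
      apply hk2
      rw [if_neg (by omega), if_pos (by omega)]
      have e : i + 1 + j - (k + 1) = j := by omega
      rw [e, hki]
      exact h1
    by_cases hkj : k = j
    · exfalso
      apply hk2
      rw [if_pos (by omega), if_neg (by omega)]
      have e : i + 1 + j - k = i + 1 := by omega
      rw [e, hkj]
      exact h2
    refine ⟨hki, hkj, ?_⟩
    by_cases hin : i < k ∧ k < j
    · rw [if_pos hin, mem_filter, mem_range]
      refine ⟨by omega, fun h => hk2 ?_⟩
      rw [if_pos (by omega), if_pos (by omega)]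
      have e1 : i + 1 + j - k = i + j - k + 1 := by omega
      have e2 : i + 1 + j - (k + 1) = i + j - k := by omega
      rw [e1, e2]
      exact hsymm _ _ h
    · rw [if_neg hin, mem_filter, mem_range]
      refine ⟨hkm, fun h => hk2 ?_⟩
      rw [if_neg (by omega), if_neg (by omega)]
      exact h
  have hbF : i ∈ F ∨ j ∈ F := by
    rcases hb with hb | hb
    · exact Or.inl (mem_filter.2 ⟨mem_range.2 (by omega), hb⟩)
    · exact Or.inr (mem_filter.2 ⟨mem_range.2 (by omega), hb⟩)
  have hsub : F'.image (fun k => if i < k ∧ k < j then i + j - k else k) ⊂ F := by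
    refine ⟨?_, fun hc => ?_⟩
    · intro t ht
      obtain ⟨k, hk, rfl⟩ := mem_image.1 ht
      exact (hkey k hk).2.2
    · rcases hbF with h | h
      · obtain ⟨k, hk, hke⟩ := mem_image.1 (hc h)
        obtain ⟨h3, h4, _⟩ := hkey k hk
        split_ifs at hke <;> omega
      · obtain ⟨k, hk, hke⟩ := mem_image.1 (hc h)
        obtain ⟨h3, h4, _⟩ := hkey k hk
        split_ifs at hke <;> omega
  have hcard := card_lt_card hsub
  rw [card_image_of_injOn] at hcard
  · exact hcard
  · intro a ha b hb' hab
    obtain ⟨ha1, ha2, _⟩ := hkey a ha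
    obtain ⟨hb1, hb2, _⟩ := hkey b hb'
    simp only at hab
    split_ifs at hab <;> omega

open Classical in
/-- **Ore's theorem** on Hamilton-connected graphs, for the minimum degree. -/
theorem ore [Fintype V] (adj : V → V → Prop) (hsymm : ∀ x y, adj x y → adj y x)
    (hirr : ∀ x, ¬ adj x x)
    (hdeg : ∀ x, Fintype.card V + 1 ≤ 2 * (univ.filter fun y => adj x y).card) {x y : V}
    (hxy : x ≠ y) :
    ∃ p : ℕ → V, Lst (Fintype.card V) x y p ∧
      ∀ k, k + 1 < Fintype.card V → adj (p k) (p (k + 1)) := by
  set m := Fintype.card V with hm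
  have hm2 : 2 ≤ m := by
    have : ({x, y} : Finset V).card ≤ m := card_le_univ _
    rwa [card_pair hxy] at this
  -- some listing from x to y
  have hex : ∃ p : ℕ → V, Lst m x y p := by
    have e0 : Fin m ≃ V := (Fintype.equivFin V).symm
    -- move x to the place 0 and y to the last place
    set a : Fin m := ⟨0, by omega⟩ with ha
    set b : Fin m := ⟨m - 1, by omega⟩ with hb
    have hab : a ≠ b := by
      intro h
      have := congrArg Fin.val h
      simp only [ha, hb] at this
      omega
    set e1 : Fin m ≃ V := e0.trans (Equiv.swap (e0 a) x) with he1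
    have h1 : e1 a = x := by simp [he1]
    set e2 : Fin m ≃ V := e1.trans (Equiv.swap (e1 b) y) with he2
    have h2 : e2 b = y := by simp [he2]
    have h3 : e2 a = x := by
      rw [he2, Equiv.trans_apply, h1]
      apply Equiv.swap_apply_of_ne_of_ne
      · intro h
        exact hab (e1.injective (h1.trans h))
      · exact hxy
    refine ⟨fun k => if h : k < m then e2 ⟨k, h⟩ else x, ?_, ?_, ?_⟩
    · intro i j hi hj hij
      simp only [hi, hj, dif_pos] at hij
      have := e2.injective hij
      exact congrArg Fin.val this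
    · have h0 : 0 < m := by omega
      simp only [h0, dif_pos]
      exact h3
    · have h0 : m - 1 < m := by omega
      simp only [h0, dif_pos]
      exact h2
  obtain ⟨p0, hp0⟩ := hex
  obtain ⟨p, ⟨hp, hmin⟩⟩ : ∃ p : ℕ → V, Lst m x y p ∧ ∀ q, Lst m x y q → bad adj m p ≤ bad adj m q := by
    have hne : {n | ∃ p : ℕ → V, Lst m x y p ∧ bad adj m p = n}.Nonempty := ⟨_, p0, hp0, rfl⟩
    obtain ⟨p, hp, hpn⟩ := Nat.sInf_mem hne
    refine ⟨p, hp, fun q hq => ?_⟩
    rw [hpn]
    exact Nat.sInf_le ⟨q, hq, rfl⟩
  refine ⟨p, hp, fun i hi => ?_⟩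
  by_contra hbad
  obtain ⟨hinj, hpx, hpy⟩ := hp
  -- p is onto
  have honto : ∀ z, ∃ k < m, p k = z := by
    have himg : (range m).image p = univ := by
      apply eq_univ_of_card
      rw [card_image_of_injOn, card_range]
      intro a ha b hb hab
      exact hinj a b (mem_range.1 ha) (mem_range.1 hb) hab
    intro z
    have : z ∈ (range m).image p := by rw [himg]; exact mem_univ z
    obtain ⟨k, hk, hkz⟩ := mem_image.1 this
    exact ⟨k, mem_range.1 hk, hkz⟩
  set I1 := ((range (m - 1)).erase i).filter fun j => adj (p i) (p j) with hI1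
  set I2 := ((range (m - 1)).erase i).filter fun j => adj (p (i + 1)) (p (j + 1)) with hI2
  have c1 : (univ.filter fun z => adj (p i) z).card ≤ I1.card + 1 := by
    have hsub : (univ.filter fun z => adj (p i) z) ⊆ insert y (I1.image p) := by
      intro z hz
      have hz' := (mem_filter.1 hz).2
      obtain ⟨k, hk, rfl⟩ := honto z
      rw [mem_insert]
      by_cases hk1 : k = m - 1
      · left
        rw [hk1, hpy]
      · right
        refine mem_image.2 ⟨k, mem_filter.2 ⟨mem_erase.2 ⟨?_, mem_range.2 (by omega)⟩, hz'⟩, rfl⟩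
        rintro rfl
        exact hirr _ hz'
    exact (card_le_card hsub).trans ((card_insert_le _ _).trans
      (Nat.add_le_add_right card_image_le 1))
  have c2 : (univ.filter fun z => adj (p (i + 1)) z).card ≤ I2.card + 1 := by
    have hsub : (univ.filter fun z => adj (p (i + 1)) z) ⊆
        insert x (I2.image fun j => p (j + 1)) := by
      intro z hz
      have hz' := (mem_filter.1 hz).2
      obtain ⟨k, hk, rfl⟩ := honto z
      rw [mem_insert]
      cases k with
      | zero => exact Or.inl hpx
      | succ k =>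
        right
        refine mem_image.2 ⟨k, mem_filter.2 ⟨mem_erase.2 ⟨?_, mem_range.2 (by omega)⟩, hz'⟩, rfl⟩
        rintro rfl
        exact hirr _ hz'
    exact (card_le_card hsub).trans ((card_insert_le _ _).trans
      (Nat.add_le_add_right card_image_le 1))
  have c3 : (I1 ∪ I2).card + 1 ≤ m - 1 := by
    have hsub : I1 ∪ I2 ⊆ (range (m - 1)).erase i :=
      union_subset (filter_subset _ _) (filter_subset _ _)
    have h1 := card_le_card hsub
    have h2 : ((range (m - 1)).erase i).card + 1 = m - 1 := by
      rw [card_erase_add_one (mem_range.2 (by omega)), card_range]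
    omega
  have c4 := card_union_add_card_inter I1 I2
  have d1 := hdeg (p i)
  have d2 := hdeg (p (i + 1))
  have hpos : 0 < (I1 ∩ I2).card := by omega
  obtain ⟨j, hj⟩ := card_pos.1 hpos
  obtain ⟨hj1, hj2⟩ := mem_inter.1 hj
  obtain ⟨hj3, hj4⟩ := mem_filter.1 hj1
  obtain ⟨hj5, hj6⟩ := mem_filter.1 hj2
  obtain ⟨hji, hjm⟩ := mem_erase.1 hj3
  have hjm' := mem_range.1 hjm
  rcases lt_or_gt_of_ne hji with hlt | hgt
  · have h1 := rv_bad hsymm (m := m) hlt (by omega) (hsymm _ _ hj4) (hsymm _ _ hj6) (Or.inr hbad)
    have h2 := hmin _ (rv_lst ⟨hinj, hpx, hpy⟩ hlt (by omega))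
    omega
  · have h1 := rv_bad hsymm (m := m) hgt (by omega) hj4 hj6 (Or.inl hbad)
    have h2 := hmin _ (rv_lst ⟨hinj, hpx, hpy⟩ hgt (by omega))
    omega

end Pool.Agent.Q112.CH
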