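import Pool.Agent.Q112.CH.Lift
import Pool.Agent.Q112.CH.Ore

/-!
# Hamiltonian paths of a subgroup from sequences
-/

set_option autoImplicit false

namespace Pool.Agent.Q112.CH

open Finset Equiv
open Q238.RS (HCyc)

variable {G : Type*} [Group G]

/-- a sequence that lists `N` from `1` to `y` -/
theorem hpath_of_fun [Finite G] {B : Set G} {N : Subgroup G} {y : G} (s : ℕ → G) {m : ℕ}
    (hm : m = Nat.card N) (hm1 : 1 ≤ m)
    (hmem : ∀ i, i < m → s i ∈ N) (hinj : ∀ i j, i < m → j < m → s i = s j → i = j)
    (h0 : s 0 = 1) (hlast : s (m - 1) = y) (hstep : ∀ i, i + 1 < m → (s i)⁻¹ * s (i + 1) ∈ B) :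
    HPath B N 1 y := by
  classical
  set L : List G := (List.range m).map s with hL
  have hlen : L.length = m := by rw [hL, List.length_map, List.length_range]
  have hget : ∀ i (hi : i < L.length), L[i] = s i := by
    intro i hi
    simp [hL]
  have hnd : L.Nodup := by
    rw [hL]
    refine List.Nodup.map_on ?_ List.nodup_range
    intro a ha b hb hab
    exact hinj a b (List.mem_range.1 ha) (List.mem_range.1 hb) hab
  have hset : {a | a ∈ L} = (N : Set G) := by
    have hsub : {a | a ∈ L} ⊆ (N : Set G) := by
      intro a ha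
      have ha' : a ∈ L := ha
      rw [hL, List.mem_map] at ha'
      obtain ⟨i, hi, rfl⟩ := ha'
      exact hmem i (List.mem_range.1 hi)
    refine Set.eq_of_subset_of_ncard_le hsub ?_ (Set.toFinite _)
    have h1 : {a | a ∈ L}.ncard = m := by
      have h2 : {a | a ∈ L} = (L.toFinset : Set G) := by
        ext a
        simp
      rw [h2, Set.ncard_coe_finset, List.toFinset_card_of_nodup hnd, hlen]
    rw [h1, hm]
    exact le_of_eq rfl
  have hmemL : ∀ z, z ∈ L ↔ z ∈ N := by
    intro z
    have := Set.ext_iff.1 hset z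
    exact this
  refine ⟨L.formPerm, ?_, ?_, ?_, ?_⟩
  · rw [← hset]
    exact hnd.isCycleOn_formPerm
  · intro z hz
    exact List.formPerm_apply_of_notMem fun h => hz ((hmemL z).1 h)
  · have h1 := List.formPerm_apply_getElem L hnd (m - 1) (by omega)
    rw [hget, hlast, hget] at h1
    rw [h1, hlen]
    have h2 : m - 1 + 1 = m := by omega
    rw [h2, Nat.mod_self, h0]
  · intro z hz hzy
    obtain ⟨i, hi, rfl⟩ := List.getElem_of_mem ((hmemL z).2 hz)
    rw [hlen] at hi
    have hi2 : i + 1 < m := by
      by_contra hcon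
      have h3 : i = m - 1 := by omega
      apply hzy
      rw [hget, h3, hlast]
    rw [List.formPerm_apply_getElem L hnd i (by omega), hget, hget, hlen, Nat.mod_eq_of_lt hi2]
    exact hstep i hi2

/-- the same for a list of the steps -/
theorem hpath_of_list [Finite G] {B : Set G} {N : Subgroup G} {y : G} {l : List G}
    (hBN : ∀ b ∈ B, b ∈ N) (hlen : l.length + 1 = Nat.card N) (hl : ∀ b ∈ l, b ∈ B)
    (hinj : ∀ i j, i < Nat.card N → j < Nat.card N → (l.take i).prod = (l.take j).prod → i = j)
    (hy : l.prod = y) : HPath B N 1 y := by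
  refine hpath_of_fun (fun i => (l.take i).prod) rfl (by omega) ?_ hinj (by simp) ?_ ?_
  · intro i _
    exact Subgroup.list_prod_mem _ fun x hx => hBN x (hl x (List.mem_of_mem_take hx))
  · show (l.take (Nat.card N - 1)).prod = y
    rw [List.take_of_length_le (by omega), hy]
  · intro i hi
    have hil : i < l.length := by omega
    show ((l.take i).prod)⁻¹ * (l.take (i + 1)).prod ∈ B
    rw [List.prod_take_succ l i hil, inv_mul_cancel_left]
    exact hl _ (List.getElem_mem hil)

/-- Ore's theorem for Cayley graphs -/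
theorem ore_list [Finite G] {B : Set G} {N : Subgroup G} (hBN : ∀ b ∈ B, b ∈ N)
    (hBinv : ∀ b ∈ B, b⁻¹ ∈ B) (hB1 : (1 : G) ∉ B) (hdeg : Nat.card N + 1 ≤ 2 * B.ncard) {y : G}
    (hyN : y ∈ N) (hy : y ≠ 1) :
    ∃ l : List G, l.length + 1 = Nat.card N ∧ (∀ b ∈ l, b ∈ B) ∧
      (∀ i j, i < Nat.card N → j < Nat.card N → (l.take i).prod = (l.take j).prod → i = j) ∧
      l.prod = y := by
  classical
  have := Fintype.ofFinite N
  set adj : N → N → Prop := fun a b => (a : G)⁻¹ * b ∈ B with hadj
  have hsymm : ∀ a b, adj a b → adj b a := by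
    intro a b hab
    have h1 := hBinv _ hab
    rw [mul_inv_rev, inv_inv] at h1
    exact h1
  have hirr : ∀ a, ¬ adj a a := by
    intro a h
    apply hB1
    have h1 : (a : G)⁻¹ * a ∈ B := h
    rwa [inv_mul_cancel] at h1
  have hcard : Fintype.card N = Nat.card N := (Nat.card_eq_fintype_card).symm
  have hd : ∀ a : N, (univ.filter fun b => adj a b).card = B.ncard := by
    intro a
    rw [← Set.ncard_coe_finset]
    have h1 : B = (fun b : N => (a : G)⁻¹ * b) '' ((univ.filter fun b => adj a b : Finset N) :
        Set N) := by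
      ext b
      constructor
      · intro hb
        refine ⟨a * ⟨b, hBN b hb⟩, ?_, ?_⟩
        · simp only [coe_filter, mem_univ, true_and, Set.mem_setOf_eq, hadj]
          rw [Subgroup.coe_mul, inv_mul_cancel_left]
          exact hb
        · show (a : G)⁻¹ * ((a * ⟨b, hBN b hb⟩ : N) : G) = b
          rw [Subgroup.coe_mul, inv_mul_cancel_left]
      · rintro ⟨b', hb', rfl⟩
        simp only [coe_filter, mem_univ, true_and, Set.mem_setOf_eq] at hb'
        exact hb'
    rw [h1, Set.ncard_image_of_injective]
    intro b b' hbb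
    have h2 : (a : G)⁻¹ * (b : G) = (a : G)⁻¹ * (b' : G) := hbb
    exact Subtype.ext (mul_left_cancel h2)
  obtain ⟨p, ⟨hp1, hp2, hp3⟩, hp4⟩ := ore adj hsymm hirr (by
    intro a
    rw [hd a, hcard]
    exact hdeg) (x := 1) (y := ⟨y, hyN⟩) (by
      intro h
      apply hy
      exact (congrArg Subtype.val h).symm)
  rw [hcard] at hp1 hp3 hp4
  have hN1 : 1 ≤ Nat.card N := Nat.card_pos
  -- the list of the steps
  set l : List G := (List.range (Nat.card N - 1)).map fun i => ((p i : N) : G)⁻¹ * (p (i + 1) : N)
    with hl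
  have htake : ∀ i, i < Nat.card N → (l.take i).prod = p i := by
    intro i
    induction i with
    | zero =>
      intro _
      rw [List.take_zero, List.prod_nil, hp2]
      rfl
    | succ i ih =>
      intro hi
      have hil : i < l.length := by
        rw [hl, List.length_map, List.length_range]
        omega
      rw [List.prod_take_succ l i hil, ih (by omega)]
      have h5 : l[i] = ((p i : N) : G)⁻¹ * (p (i + 1) : N) := by simp [hl]
      rw [h5, mul_inv_cancel_left]
  have hlen : l.length + 1 = Nat.card N := by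
    rw [hl, List.length_map, List.length_range]
    omega
  refine ⟨l, hlen, ?_, ?_, ?_⟩
  · intro b hb
    rw [hl, List.mem_map] at hb
    obtain ⟨i, hi, rfl⟩ := hb
    rw [List.mem_range] at hi
    exact hp4 i (by omega)
  · intro i j hi hj hij
    rw [htake i hi, htake j hj] at hij
    exact hp1 i j hi hj (Subtype.ext hij)
  · have h6 := htake (Nat.card N - 1) (by omega)
    rw [List.take_of_length_le (by omega), hp3] at h6
    exact h6

end Pool.Agent.Q112.CH
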