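import Pool.Agent.Q112.CH.CayTough
import Pool.Agent.Q238.RS.Final

/-!
# Hamiltonian cycles in Cayley graphs of group extensions

The fibres of `G → G ⧸ N` are merged along a connected spanning subgraph of maximum degree three of
the Cayley graph of `G ⧸ N`.
-/

set_option autoImplicit false

namespace Pool.Agent.Q112.CH

open Finset SimpleGraph Equiv
open Q238.RS (HCyc isCycleOn_merge)

variable {G : Type*} [Group G]

/-- a Hamiltonian path of `N` from `x` to `y` with steps in `B`, closed up to a cyclic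
permutation -/
def HPath (B : Set G) (N : Subgroup G) (x y : G) : Prop :=
  ∃ k : Perm G, k.IsCycleOn (N : Set G) ∧ (∀ z, z ∉ N → k z = z) ∧ k y = x ∧
    ∀ z ∈ N, z ≠ y → z⁻¹ * k z ∈ B

/-- translation of a Hamiltonian path to a coset -/
theorem hpath_coset {B : Set G} {N : Subgroup G} {y : G} (h : HPath B N 1 y) (g : G) :
    ∃ k : Perm G, k.IsCycleOn {z | g⁻¹ * z ∈ N} ∧ (∀ z, g⁻¹ * z ∉ N → k z = z) ∧ k (g * y) = g ∧
      ∀ z, g⁻¹ * z ∈ N → z ≠ g * y → z⁻¹ * k z ∈ B := by
  obtain ⟨k, hk1, hk2, hk3, hk4⟩ := h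
  have hap : ∀ z, (Equiv.mulLeft g * k * (Equiv.mulLeft g)⁻¹) z = g * k (g⁻¹ * z) := by
    intro z
    rw [Perm.mul_apply, Perm.mul_apply]
    rfl
  refine ⟨Equiv.mulLeft g * k * (Equiv.mulLeft g)⁻¹, ?_, ?_, ?_, ?_⟩
  · have h1 := hk1.conj (g := Equiv.mulLeft g)
    have h2 : (Equiv.mulLeft g) '' (N : Set G) = {z | g⁻¹ * z ∈ N} := by
      ext z
      constructor
      · rintro ⟨a, ha, rfl⟩
        show g⁻¹ * (g * a) ∈ N
        rwa [inv_mul_cancel_left]
      · intro hz
        exact ⟨g⁻¹ * z, hz, mul_inv_cancel_left g z⟩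
    rw [← h2]
    exact h1
  · intro z hz
    rw [hap, hk2 _ hz, mul_inv_cancel_left]
  · rw [hap, inv_mul_cancel_left, hk3, mul_one]
  · intro z hz hzy
    rw [hap]
    have h1 := hk4 _ hz (fun h => hzy (by rw [← h, mul_inv_cancel_left]))
    rw [mul_inv_rev, inv_inv, mul_assoc] at h1
    exact h1

/-- the fibre of `G → G ⧸ N` over `F` -/
def fib (N : Subgroup G) (F : G ⧸ N) : Set G := {x | (QuotientGroup.mk x : G ⧸ N) = F}

theorem fib_ncard (N : Subgroup G) (F : G ⧸ N) : (fib N F).ncard = Nat.card N := by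
  obtain ⟨g, rfl⟩ := QuotientGroup.mk_surjective F
  have h : fib N (QuotientGroup.mk g) = (fun n => g * n) '' (N : Set G) := by
    ext x
    constructor
    · intro hx
      have h1 : (QuotientGroup.mk g : G ⧸ N) = QuotientGroup.mk x := Eq.symm hx
      rw [QuotientGroup.eq] at h1
      exact ⟨g⁻¹ * x, h1, mul_inv_cancel_left g x⟩
    · rintro ⟨n, hn, rfl⟩
      show (QuotientGroup.mk (g * n) : G ⧸ N) = QuotientGroup.mk g
      rw [eq_comm, QuotientGroup.eq, inv_mul_cancel_left]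
      exact hn
  rw [h, Set.ncard_image_of_injective _ (mul_right_injective g)]
  rfl

/-- the state of the merging process: `S` is the set of the fibres merged so far, `U` the set of
the used places -/
structure St (A B : Set G) (N : Subgroup G) (T : SimpleGraph (G ⧸ N))
    (S : Set (G ⧸ N)) (f : Perm G) (U : Set G) : Prop where
  cyc : f.IsCycleOn {x | (QuotientGroup.mk x : G ⧸ N) ∈ S}
  fix : ∀ x, (QuotientGroup.mk x : G ⧸ N) ∉ S → f x = x
  adj : ∀ x, (QuotientGroup.mk x : G ⧸ N) ∈ S → x⁻¹ * f x ∈ A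
  loc : ∀ x, (QuotientGroup.mk x : G ⧸ N) ∈ S → x ∉ U → x⁻¹ * f x ∈ B
  used : ∀ F ∈ S, {x | x ∈ U ∧ (QuotientGroup.mk x : G ⧸ N) = F}.ncard ≤
    {F' | F' ∈ S ∧ T.Adj F F'}.ncard
  sub : ∀ x ∈ U, (QuotientGroup.mk x : G ⧸ N) ∈ S

theorem St.extend [Finite G] {A B : Set G} {N : Subgroup G} [N.Normal] {T : SimpleGraph (G ⧸ N)}
    {S : Set (G ⧸ N)} {f : Perm G} {U : Set G} (h : St A B N T S f U)
    (hAinv : ∀ a ∈ A, a⁻¹ ∈ A) (hBA : B ⊆ A) (hBN : ∀ b ∈ B, b ∈ N)
    (hP : ∀ b ∈ B, ∀ a ∈ A, HPath B N 1 (a⁻¹ * b * a))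
    (hdeg : ∀ F, {F' | T.Adj F F'}.ncard ≤ Nat.card N) {F F' : G ⧸ N} (hF : F ∈ S)
    (hF' : F' ∉ S) (hT : T.Adj F F') {a : G} (ha : a ∈ A)
    (hFa : F' = F * QuotientGroup.mk a) :
    ∃ f' U', St A B N T (insert F' S) f' U' := by
  classical
  -- a free place
  obtain ⟨u, huF, huU⟩ : ∃ u, (QuotientGroup.mk u : G ⧸ N) = F ∧ u ∉ U := by
    by_contra hno
    push Not at hno
    have h1 : fib N F ⊆ {x | x ∈ U ∧ (QuotientGroup.mk x : G ⧸ N) = F} :=
      fun x hx => ⟨hno x hx, hx⟩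
    have h2 := Set.ncard_le_ncard h1 (Set.toFinite _)
    rw [fib_ncard] at h2
    have h3 := h.used F hF
    have h4 : {F'' | F'' ∈ S ∧ T.Adj F F''} ⊂ {F'' | T.Adj F F''} := by
      refine ⟨fun x hx => hx.2, fun hc => hF' ?_⟩
      exact (hc (show F' ∈ {F'' | T.Adj F F''} from hT)).1
    have h5 := Set.ncard_lt_ncard h4 (Set.toFinite _)
    have h6 := hdeg F
    omega
  have huS : (QuotientGroup.mk u : G ⧸ N) ∈ S := by rw [huF]; exact hF
  set v := f u with hv
  have hb : u⁻¹ * v ∈ B := h.loc u huS huU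
  set b := u⁻¹ * v with hbdef
  have hvb : v = u * b := by rw [hbdef, mul_inv_cancel_left]
  have hbN : b ∈ N := hBN b hb
  obtain ⟨k, hk1, hk2, hk3, hk4⟩ := hpath_coset (hP b hb a ha) (u * a)
  have hva : u * a * (a⁻¹ * b * a) = v * a := by
    rw [hvb]
    group
  rw [hva] at hk3 hk4
  have hmk : ∀ z, (u * a)⁻¹ * z ∈ N ↔ (QuotientGroup.mk z : G ⧸ N) = F' := by
    intro z
    rw [← QuotientGroup.eq, hFa, ← huF]
    exact eq_comm
  have hset : {z | (u * a)⁻¹ * z ∈ N} = {z | (QuotientGroup.mk z : G ⧸ N) = F'} := by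
    ext z
    exact hmk z
  rw [hset] at hk1
  have hvaF : (QuotientGroup.mk (v * a) : G ⧸ N) = F' := by
    rw [← hmk, hvb]
    have h1 : (u * a)⁻¹ * (u * b * a) = a⁻¹ * b * a⁻¹⁻¹ := by group
    rw [h1]
    exact Subgroup.Normal.conj_mem inferInstance b hbN a⁻¹
  have huaF : (QuotientGroup.mk (u * a) : G ⧸ N) = F' := by
    rw [← hmk, inv_mul_cancel]
    exact one_mem N
  have hkout : ∀ z, (QuotientGroup.mk z : G ⧸ N) ≠ F' → k z = z := fun z hz =>
    hk2 z fun h1 => hz ((hmk z).1 h1)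
  have hkin : ∀ z, (QuotientGroup.mk z : G ⧸ N) = F' → z ≠ v * a → z⁻¹ * k z ∈ B :=
    fun z hz => hk4 z ((hmk z).2 hz)
  have hdisj : Disjoint {x | (QuotientGroup.mk x : G ⧸ N) ∈ S}
      {z | (QuotientGroup.mk z : G ⧸ N) = F'} := by
    rw [Set.disjoint_left]
    intro x hx hx'
    have hx1 : (QuotientGroup.mk x : G ⧸ N) ∈ S := hx
    have hx2 : (QuotientGroup.mk x : G ⧸ N) = F' := hx'
    rw [hx2] at hx1
    exact hF' hx1
  have hmerge := isCycleOn_merge (Set.toFinite _) (Set.toFinite _) h.cyc hk1 hdisj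
    (fun x hx => h.fix x fun h1 => by
      have hx2 : (QuotientGroup.mk x : G ⧸ N) = F' := hx
      rw [hx2] at h1
      exact hF' h1)
    (fun x hx => hkout x fun h1 => by
      have hx1 : (QuotientGroup.mk x : G ⧸ N) ∈ S := hx
      rw [h1] at hx1
      exact hF' hx1) (u := u) (w := v * a) huS hvaF
  have hunion : {x | (QuotientGroup.mk x : G ⧸ N) ∈ S} ∪ {z | (QuotientGroup.mk z : G ⧸ N) = F'} =
      {x | (QuotientGroup.mk x : G ⧸ N) ∈ insert F' S} := by
    ext x
    constructor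
    · rintro (h1 | h1)
      · exact Or.inr h1
      · exact Or.inl h1
    · rintro (h1 | h1)
      · exact Or.inr h1
      · exact Or.inl h1
  rw [hunion] at hmerge
  -- values of the new permutation
  have hFu : (f * k * swap u (v * a)) u = u * a := by
    rw [Perm.mul_apply, Perm.mul_apply, swap_apply_left, hk3]
    refine h.fix _ fun h1 => ?_
    rw [huaF] at h1
    exact hF' h1
  have hFw : (f * k * swap u (v * a)) (v * a) = v := by
    rw [Perm.mul_apply, Perm.mul_apply, swap_apply_right, hkout u, hv]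
    intro h1
    rw [h1] at huS
    exact hF' huS
  have hFx : ∀ x, (QuotientGroup.mk x : G ⧸ N) ∈ S → x ≠ u →
      (f * k * swap u (v * a)) x = f x := by
    intro x hx hxu
    have hxF : (QuotientGroup.mk x : G ⧸ N) ≠ F' := by
      intro h1
      rw [h1] at hx
      exact hF' hx
    rw [Perm.mul_apply, Perm.mul_apply, swap_apply_of_ne_of_ne hxu, hkout x hxF]
    rintro rfl
    exact hxF hvaF
  have hFz : ∀ x, (QuotientGroup.mk x : G ⧸ N) = F' → x ≠ v * a →
      (f * k * swap u (v * a)) x = k x := by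
    intro x hx hxw
    rw [Perm.mul_apply, Perm.mul_apply, swap_apply_of_ne_of_ne _ hxw]
    · refine h.fix _ fun h1 => ?_
      have h2 : k x ∈ {z | (QuotientGroup.mk z : G ⧸ N) = F'} := hk1.1.mapsTo hx
      have h3 : (QuotientGroup.mk (k x) : G ⧸ N) = F' := h2
      rw [h3] at h1
      exact hF' h1
    · rintro rfl
      rw [hx] at huS
      exact hF' huS
  have hvaU : v * a ∉ U := by
    intro h1
    have h2 := h.sub _ h1
    rw [hvaF] at h2
    exact hF' h2
  have hFF' : F ≠ F' := fun h1 => hF' (h1 ▸ hF)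
  refine ⟨f * k * swap u (v * a), insert u (insert (v * a) U), hmerge, ?_, ?_, ?_, ?_, ?_⟩
  · intro x hx
    have h1 : (QuotientGroup.mk x : G ⧸ N) ∉ S := fun h1 => hx (Or.inr h1)
    have h2 : (QuotientGroup.mk x : G ⧸ N) ≠ F' := fun h2 => hx (Or.inl h2)
    rw [Perm.mul_apply, Perm.mul_apply, swap_apply_of_ne_of_ne, hkout x h2, h.fix x h1]
    · rintro rfl
      exact h1 huS
    · rintro rfl
      exact h2 hvaF
  · intro x hx
    by_cases hxu : x = u
    · rw [hxu, hFu, inv_mul_cancel_left]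
      exact ha
    by_cases hxw : x = v * a
    · rw [hxw, hFw]
      have h1 : (v * a)⁻¹ * v = a⁻¹ := by group
      rw [h1]
      exact hAinv a ha
    rcases hx with hx | hx
    · rw [hFz x hx hxw]
      exact hBA (hkin x hx hxw)
    · rw [hFx x hx hxu]
      exact h.adj x hx
  · intro x hx hxU
    have hxu : x ≠ u := fun h1 => hxU (Or.inl h1)
    have hxw : x ≠ v * a := fun h1 => hxU (Or.inr (Or.inl h1))
    have hxU' : x ∉ U := fun h1 => hxU (Or.inr (Or.inr h1))
    rcases hx with hx | hx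
    · rw [hFz x hx hxw]
      exact hkin x hx hxw
    · rw [hFx x hx hxu]
      exact h.loc x hx hxU'
  · intro F1 hF1
    by_cases h1 : F1 = F'
    · subst h1
      have h2 : {x | x ∈ insert u (insert (v * a) U) ∧ (QuotientGroup.mk x : G ⧸ N) = F1} ⊆
          {v * a} := by
        rintro x ⟨h3 | h3 | h3, h4⟩
        · exfalso
          rw [h3, huF] at h4
          exact hFF' h4
        · exact h3
        · exfalso
          have h5 := h.sub x h3
          rw [h4] at h5
          exact hF' h5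
      have h3 := Set.ncard_le_ncard h2 (Set.toFinite _)
      rw [Set.ncard_singleton] at h3
      refine h3.trans ?_
      rw [Nat.succ_le_iff, Set.ncard_pos (Set.toFinite _)]
      exact ⟨F, Or.inr hF, hT.symm⟩
    · have hF1S : F1 ∈ S := by
        rcases hF1 with h2 | h2
        · exact absurd h2 h1
        · exact h2
      by_cases h2 : F1 = F
      · subst h2
        have h3 : {x | x ∈ insert u (insert (v * a) U) ∧ (QuotientGroup.mk x : G ⧸ N) = F1} ⊆
            insert u {x | x ∈ U ∧ (QuotientGroup.mk x : G ⧸ N) = F1} := by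
          rintro x ⟨h3 | h3 | h3, h4⟩
          · exact Or.inl h3
          · exfalso
            rw [h3, hvaF] at h4
            exact hFF' h4.symm
          · exact Or.inr ⟨h3, h4⟩
        have h4 : {F'' | F'' ∈ insert F' S ∧ T.Adj F1 F''} =
            insert F' {F'' | F'' ∈ S ∧ T.Adj F1 F''} := by
          ext x
          constructor
          · rintro ⟨h4 | h4, h5⟩
            · exact Or.inl h4
            · exact Or.inr ⟨h4, h5⟩
          · rintro (h4 | ⟨h4, h5⟩)
            · rw [h4]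
              exact ⟨Or.inl rfl, hT⟩
            · exact ⟨Or.inr h4, h5⟩
        have h5 := Set.ncard_le_ncard h3 (Set.toFinite _)
        have h6 := Set.ncard_insert_le u {x | x ∈ U ∧ (QuotientGroup.mk x : G ⧸ N) = F1}
        have h7 : (insert F' {F'' | F'' ∈ S ∧ T.Adj F1 F''}).ncard =
            {F'' | F'' ∈ S ∧ T.Adj F1 F''}.ncard + 1 :=
          Set.ncard_insert_of_notMem (fun h8 => hF' h8.1) (Set.toFinite _)
        have h8 := h.used F1 hF1S
        rw [h4, h7]
        omega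
      · have h3 : {x | x ∈ insert u (insert (v * a) U) ∧ (QuotientGroup.mk x : G ⧸ N) = F1} ⊆
            {x | x ∈ U ∧ (QuotientGroup.mk x : G ⧸ N) = F1} := by
          rintro x ⟨h3 | h3 | h3, h4⟩
          · exfalso
            rw [h3, huF] at h4
            exact h2 h4.symm
          · exfalso
            rw [h3, hvaF] at h4
            exact h1 h4.symm
          · exact ⟨h3, h4⟩
        have h4 : {F'' | F'' ∈ S ∧ T.Adj F1 F''} ⊆ {F'' | F'' ∈ insert F' S ∧ T.Adj F1 F''} :=
          fun x hx => ⟨Or.inr hx.1, hx.2⟩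
        exact (Set.ncard_le_ncard h3 (Set.toFinite _)).trans ((h.used F1 hF1S).trans
          (Set.ncard_le_ncard h4 (Set.toFinite _)))
  · rintro x (h1 | h1 | h1)
    · rw [h1]
      exact Or.inr huS
    · rw [h1]
      exact Or.inl hvaF
    · exact Or.inr (h.sub x h1)

/-- **The lifting theorem.** -/
theorem lift_main [Finite G] {A B : Set G} {N : Subgroup G} [N.Normal]
    (hAinv : ∀ a ∈ A, a⁻¹ ∈ A) (hgen : Subgroup.closure A = ⊤) (hBA : B ⊆ A)
    (hBN : ∀ b ∈ B, b ∈ N) (hBinv : ∀ b ∈ B, b⁻¹ ∈ B) (hBne : B.Nonempty)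
    (hP1 : ∀ b ∈ B, HPath B N 1 b) (hP : ∀ b ∈ B, ∀ a ∈ A, HPath B N 1 (a⁻¹ * b * a))
    (hcard : 3 ≤ Nat.card N) : HCyc A (Set.univ : Set G) := by
  classical
  have := Fintype.ofFinite G
  have := Fintype.ofFinite (G ⧸ N)
  -- a connected spanning subgraph of maximum degree three of the quotient graph
  set Ā : Set (G ⧸ N) := (QuotientGroup.mk : G → G ⧸ N) '' A with hĀ
  have hĀinv : ∀ b ∈ Ā, b⁻¹ ∈ Ā := by
    rintro _ ⟨a, ha, rfl⟩
    exact ⟨a⁻¹, hAinv a ha, rfl⟩
  have hĀgen : Subgroup.closure Ā = ⊤ := by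
    have h1 := Subgroup.map_top_of_surjective (QuotientGroup.mk' N)
      (QuotientGroup.mk'_surjective N)
    rw [← hgen, MonoidHom.map_closure] at h1
    exact h1
  obtain ⟨T, hTle, hTc, hTdeg⟩ := cay_deg_three Ā hĀinv hĀgen
  have hdeg : ∀ F, {F' | T.Adj F F'}.ncard ≤ Nat.card N := by
    intro F
    have h1 : {F' | T.Adj F F'}.ncard = dg T F := by
      unfold dg
      rw [← Set.ncard_coe_finset]
      congr 1
      ext y
      simp
    rw [h1]
    exact (hTdeg F).trans hcard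
  -- the start
  have hstart : ∃ f U, St A B N T {QuotientGroup.mk 1} f U := by
    obtain ⟨b, hb⟩ := hBne
    obtain ⟨k, hk1, hk2, hk3, hk4⟩ := hP1 b hb
    have hmk : ∀ z, (QuotientGroup.mk z : G ⧸ N) ∈ ({QuotientGroup.mk 1} : Set (G ⧸ N)) ↔
        z ∈ N := by
      intro z
      rw [Set.mem_singleton_iff, eq_comm, QuotientGroup.eq, inv_one, one_mul]
    have hall : ∀ z ∈ N, z⁻¹ * k z ∈ B := by
      intro z hz
      by_cases h1 : z = b
      · rw [h1, hk3, mul_one]
        exact hBinv b hb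
      · exact hk4 z hz h1
    refine ⟨k, ∅, ?_, ?_, ?_, ?_, ?_, ?_⟩
    · have h1 : {x : G | (QuotientGroup.mk x : G ⧸ N) ∈ ({QuotientGroup.mk 1} : Set (G ⧸ N))} =
          (N : Set G) := by
        ext z
        exact hmk z
      rw [h1]
      exact hk1
    · intro x hx
      exact hk2 x fun h1 => hx ((hmk x).2 h1)
    · intro x hx
      exact hBA (hall x ((hmk x).1 hx))
    · intro x hx _
      exact hall x ((hmk x).1 hx)
    · intro F _
      have h1 : {x | x ∈ (∅ : Set G) ∧ (QuotientGroup.mk x : G ⧸ N) = F} = ∅ := by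
        ext x
        simp
      rw [h1, Set.ncard_empty]
      exact Nat.zero_le _
    · intro x hx
      exact absurd hx (Set.notMem_empty x)
  -- a maximal state
  obtain ⟨S, hS, hSmax⟩ : ∃ S : Set (G ⧸ N), (QuotientGroup.mk 1 ∈ S ∧ ∃ f U, St A B N T S f U) ∧
      ∀ S' : Set (G ⧸ N), (QuotientGroup.mk 1 ∈ S' ∧ ∃ f U, St A B N T S' f U) →
        S'.ncard ≤ S.ncard := by
    obtain ⟨S, hS, hm⟩ := exists_max_image
      (univ.filter fun S : Set (G ⧸ N) => QuotientGroup.mk 1 ∈ S ∧ ∃ f U, St A B N T S f U)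
      (fun S => S.ncard) ⟨{QuotientGroup.mk 1}, mem_filter.2 ⟨mem_univ _, rfl, hstart⟩⟩
    exact ⟨S, (mem_filter.1 hS).2, fun S' hS' => hm S' (mem_filter.2 ⟨mem_univ _, hS'⟩)⟩
  obtain ⟨hS1, f, U, hSt⟩ := hS
  have hSuniv : S = Set.univ := by
    by_contra hne
    obtain ⟨y, hy⟩ := (Set.ne_univ_iff_exists_notMem S).1 hne
    -- an edge of T which leaves S
    have hedge : ∃ F F', F ∈ S ∧ F' ∉ S ∧ T.Adj F F' := by
      by_contra hno
      push Not at hno
      have h1 : Relation.ReflTransGen T.Adj (QuotientGroup.mk 1) y :=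
        (reachable_iff_reflTransGen _ _).1 (hTc.preconnected _ _)
      have h2 : y ∈ S := by
        clear hy
        induction h1 with
        | refl => exact hS1
        | @tail b c _ h3 ih =>
          by_contra hc
          exact hno b c ih hc h3
      exact hy h2
    obtain ⟨F, F', hF, hF', hT⟩ := hedge
    obtain ⟨-, a, ha, hFa⟩ := hTle hT
    have hFa' : F' = F * QuotientGroup.mk a := by
      rw [hFa, mul_inv_cancel_left]
    obtain ⟨f', U', hSt'⟩ := hSt.extend hAinv hBA hBN hP hdeg hF hF' hT ha hFa'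
    have h1 := hSmax (insert F' S) ⟨Or.inr hS1, f', U', hSt'⟩
    rw [Set.ncard_insert_of_notMem hF' (Set.toFinite _)] at h1
    omega
  subst hSuniv
  refine ⟨f, ?_, fun x hx => absurd (Set.mem_univ x) hx, fun x _ => hSt.adj x (Set.mem_univ _)⟩
  have h1 := hSt.cyc
  have h2 : {x : G | (QuotientGroup.mk x : G ⧸ N) ∈ (Set.univ : Set (G ⧸ N))} = Set.univ := by
    ext x
    simp
  rw [h2] at h1
  exact h1

end Pool.Agent.Q112.CH
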