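import Mathlib

/-!
# Spanning trees of maximum degree three

A connected graph in which the deletion of every nonempty set `S` of vertices leaves at most `|S|`
components has a connected spanning subgraph of maximum degree at most three (Win 1989, here with
the augmentation argument of Fürer and Raghavachari).
-/

set_option autoImplicit false

namespace Pool.Agent.Q112.CH

open Finset SimpleGraph

variable {W : Type*}

open Classical in
/-- degree -/
noncomputable def dg [Fintype W] (T : SimpleGraph W) (v : W) : ℕ := (univ.filter fun w => T.Adj v w).card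

open Classical in
/-- number of neighbours outside `C` -/
noncomputable def out [Fintype W] (T : SimpleGraph W) (C : Set W) (v : W) : ℕ :=
  (univ.filter fun w => T.Adj v w ∧ w ∉ C).card

/-- `T[X]` as a graph on all vertices -/
def res (T : SimpleGraph W) (X : Set W) : SimpleGraph W where
  Adj x y := T.Adj x y ∧ x ∈ X ∧ y ∈ X
  symm := ⟨fun _ _ h => ⟨h.1.symm, h.2.2, h.2.1⟩⟩
  loopless := ⟨fun x h => T.loopless.irrefl x h.1⟩

/-- the component of `u` in `T[X]` -/
def cp (T : SimpleGraph W) (X : Set W) (u : W) : Set W := {x | (res T X).Reachable u x}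

theorem mem_cp_self (T : SimpleGraph W) (X : Set W) (u : W) : u ∈ cp T X u := Reachable.refl u

theorem cp_sub (T : SimpleGraph W) {X : Set W} {u : W} (hu : u ∈ X) : cp T X u ⊆ X := by
  intro x hx
  have h : Relation.ReflTransGen (res T X).Adj u x := (reachable_iff_reflTransGen u x).1 hx
  induction h with
  | refl => exact hu
  | tail _ h2 _ => exact h2.2.2

theorem cp_adj {T : SimpleGraph W} {X : Set W} {u x y : W} (hx : x ∈ cp T X u)
    (h : (res T X).Adj x y) : y ∈ cp T X u := Reachable.trans hx h.reachable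

theorem cp_eq {T : SimpleGraph W} {X : Set W} {u x : W} (hx : x ∈ cp T X u) :
    cp T X x = cp T X u := by
  ext y
  exact ⟨fun h => Reachable.trans hx h, fun h => Reachable.trans (Reachable.symm hx) h⟩

theorem res_mono {T : SimpleGraph W} {X Y : Set W} (h : X ⊆ Y) : res T X ≤ res T Y :=
  fun _ _ hxy => ⟨hxy.1, h hxy.2.1, h hxy.2.2⟩

theorem cp_mono {T : SimpleGraph W} {X Y : Set W} (h : X ⊆ Y) (u : W) : cp T X u ⊆ cp T Y u :=
  fun _ hx => Reachable.mono (res_mono h) hx

/-- two members of a component are joined inside the component -/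
theorem cp_reach {T : SimpleGraph W} {X : Set W} {u x y : W} (hx : x ∈ cp T X u)
    (hy : y ∈ cp T X u) : (res T (cp T X u)).Reachable x y := by
  have h : Relation.ReflTransGen (res T X).Adj x y :=
    (reachable_iff_reflTransGen x y).1 (Reachable.trans (Reachable.symm hx) hy)
  have key : y ∈ cp T X u ∧ (res T (cp T X u)).Reachable x y := by
    induction h with
    | refl => exact ⟨hx, Reachable.refl x⟩
    | @tail b c _ h2 ih =>
      have hb : b ∈ cp T X u := by
        have h3 := cp_adj hy (h2.symm)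
        exact h3
      obtain ⟨h3, h4⟩ := ih hb
      exact ⟨hy, h4.trans (Adj.reachable ⟨h2.1, h3, hy⟩)⟩
  exact key.2

/-- a walk inside `C` -/
theorem walk_res {T : SimpleGraph W} {C : Set W} : ∀ {x y : W} (P : T.Walk x y),
    (∀ z ∈ P.support, z ∈ C) → (res T C).Reachable x y := by
  intro x y P
  induction P with
  | nil => intro _; exact Reachable.refl _
  | cons h p ih =>
    intro hP
    have hadj : (res T C).Adj _ _ := ⟨h, hP _ (by simp), hP _ (by simp)⟩
    exact hadj.reachable.trans (ih fun z hz => hP z (by simp [hz]))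

/-- simulation of a walk -/
theorem walk_sim {T R : SimpleGraph W} {C : Set W} {e : Sym2 W}
    (hsim : ∀ x ∈ C, ∀ y ∈ C, T.Adj x y → s(x, y) ≠ e → R.Reachable x y) :
    ∀ {x y : W} (P : T.Walk x y), (∀ z ∈ P.support, z ∈ C) → e ∉ P.edges → R.Reachable x y := by
  intro x y P
  induction P with
  | nil => intro _ _; exact Reachable.refl _
  | cons h p ih =>
    intro hP he
    rw [Walk.edges_cons, List.mem_cons, not_or] at he
    refine (hsim _ (hP _ (by simp)) _ (hP _ (by simp)) h (Ne.symm he.1)).trans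
      (ih (fun z hz => hP z (by simp [hz])) he.2)

theorem swap_lemma [Fintype W] (Q T : SimpleGraph W) (hTQ : T ≤ Q) (C Cu Cv : Set W) (Ru Rv : SimpleGraph W)
    (hRuQ : Ru ≤ Q) (hRvQ : Rv ≤ Q) (hRu : ∀ x y, Ru.Adj x y → x ∈ Cu ∧ y ∈ Cu)
    (hRv : ∀ x y, Rv.Adj x y → x ∈ Cv ∧ y ∈ Cv) (cu : ∀ x ∈ Cu, ∀ y ∈ Cu, Ru.Reachable x y)
    (cv : ∀ x ∈ Cv, ∀ y ∈ Cv, Rv.Reachable x y) (hCu : Cu ⊆ C) (hCv : Cv ⊆ C)
    (hd : ∀ x ∈ Cu, x ∉ Cv) (u v w : W) (hu : u ∈ Cu) (hv : v ∈ Cv) (hwu : w ∉ Cu) (hwv : w ∉ Cv)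
    (P : T.Walk u v) (hP : P.IsPath) (hPC : ∀ x ∈ P.support, x ∈ C) (hwP : w ∈ P.support)
    (huv : Q.Adj u v) (hC : ∀ x ∈ C, ∀ y ∈ C, (res T C).Reachable x y) :
    ∃ R : SimpleGraph W, R ≤ Q ∧ (∀ x y, R.Adj x y → x ∈ C ∧ y ∈ C) ∧
      (∀ x ∈ C, ∀ y ∈ C, R.Reachable x y) ∧ (dg R w + out T C w + 1 ≤ dg T w) ∧
      (∀ x ∈ Cu, x ≠ u → dg R x + out T C x ≤ dg Ru x + out T Cu x) ∧
      (dg R u + out T C u ≤ dg Ru u + out T Cu u + 1) ∧
      (∀ x ∈ Cv, x ≠ v → dg R x + out T C x ≤ dg Rv x + out T Cv x) ∧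
      (dg R v + out T C v ≤ dg Rv v + out T Cv v + 1) ∧
      (∀ x ∈ C, x ∉ Cu → x ∉ Cv → dg R x + out T C x ≤ dg T x) := by
  classical
  have huv' : u ≠ v := huv.ne
  have hwu' : w ≠ u := fun h => hwu (h ▸ hu)
  have hwv' : w ≠ v := fun h => hwv (h ▸ hv)
  -- split the path
  obtain ⟨p1, p2, hp⟩ := Walk.mem_support_iff_exists_append.1 hwP
  obtain ⟨w', hww', r, hr⟩ : ∃ (w' : W) (h : T.Adj w w') (r : T.Walk w' v), p2 = Walk.cons h r := by
    cases p2 with
    | nil => exact absurd rfl hwv'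
    | cons h r => exact ⟨_, h, r, rfl⟩
  have hnd : (p1.support ++ r.support).Nodup := by
    have h1 := hP.support_nodup
    rw [hp, hr, Walk.support_append] at h1
    simpa using h1
  have hsup : ∀ z, z ∈ p1.support ∨ z ∈ r.support → z ∈ P.support := by
    intro z hz
    rw [hp, hr, Walk.support_append]
    simpa using hz
  have hdj := List.disjoint_of_nodup_append hnd
  have hw'r : w' ∈ r.support := Walk.start_mem_support r
  have hwp1 : w ∈ p1.support := Walk.end_mem_support p1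
  have hw'C : w' ∈ C := hPC w' (hsup w' (Or.inr hw'r))
  have hwC : w ∈ C := hPC w hwP
  have he1 : s(w, w') ∉ p1.edges := by
    intro h
    exact hdj (Walk.snd_mem_support_of_mem_edges p1 h) hw'r
  have he2 : s(w, w') ∉ r.edges := by
    intro h
    exact hdj hwp1 (Walk.fst_mem_support_of_mem_edges r h)
  -- the new graph
  obtain ⟨R, hRadj⟩ : ∃ R : SimpleGraph W, ∀ x y, R.Adj x y ↔ x ∈ C ∧ y ∈ C ∧
      (Ru.Adj x y ∨ Rv.Adj x y ∨
        (T.Adj x y ∧ ¬ (x ∈ Cu ∧ y ∈ Cu) ∧ ¬ (x ∈ Cv ∧ y ∈ Cv) ∧ s(x, y) ≠ s(w, w')) ∨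
          s(x, y) = s(u, v)) :=
    ⟨{ Adj := fun x y => x ∈ C ∧ y ∈ C ∧ (Ru.Adj x y ∨ Rv.Adj x y ∨
        (T.Adj x y ∧ ¬ (x ∈ Cu ∧ y ∈ Cu) ∧ ¬ (x ∈ Cv ∧ y ∈ Cv) ∧ s(x, y) ≠ s(w, w')) ∨
          s(x, y) = s(u, v))
       symm := ⟨fun x y h => by
        obtain ⟨h1, h2, h3⟩ := h
        refine ⟨h2, h1, ?_⟩
        rcases h3 with h3 | h3 | ⟨h3, h4, h5, h6⟩ | h3
        · exact Or.inl h3.symm
        · exact Or.inr (Or.inl h3.symm)
        · refine Or.inr (Or.inr (Or.inl ⟨h3.symm, fun h => h4 ⟨h.2, h.1⟩, fun h => h5 ⟨h.2, h.1⟩,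
            ?_⟩))
          rw [Sym2.eq_swap]
          exact h6
        · refine Or.inr (Or.inr (Or.inr ?_))
          rw [Sym2.eq_swap]
          exact h3⟩
       loopless := ⟨fun x h => by
        obtain ⟨h1, h2, h3⟩ := h
        rcases h3 with h3 | h3 | ⟨h3, h4, h5, h6⟩ | h3
        · exact h3.ne rfl
        · exact h3.ne rfl
        · exact h3.ne rfl
        · rw [Sym2.eq_iff] at h3
          rcases h3 with ⟨h3, h4⟩ | ⟨h3, h4⟩
          · exact huv' (h3.symm.trans h4)
          · exact huv' (h4.symm.trans h3)⟩ }, fun x y => Iff.rfl⟩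
  have hRuR : Ru ≤ R := fun x y h =>
    (hRadj x y).2 ⟨hCu (hRu x y h).1, hCu (hRu x y h).2, Or.inl h⟩
  have hRvR : Rv ≤ R := fun x y h =>
    (hRadj x y).2 ⟨hCv (hRv x y h).1, hCv (hRv x y h).2, Or.inr (Or.inl h)⟩
  have hsim0 : ∀ x ∈ C, ∀ y ∈ C, T.Adj x y → s(x, y) ≠ s(w, w') → R.Reachable x y := by
    intro x hx y hy hxy hne
    by_cases h1 : x ∈ Cu ∧ y ∈ Cu
    · exact (cu x h1.1 y h1.2).mono hRuR
    by_cases h2 : x ∈ Cv ∧ y ∈ Cv
    · exact (cv x h2.1 y h2.2).mono hRvR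
    exact Adj.reachable ((hRadj x y).2 ⟨hx, hy, Or.inr (Or.inr (Or.inl ⟨hxy, h1, h2, hne⟩))⟩)
  have hww : R.Reachable w w' := by
    have r1 : R.Reachable u w := walk_sim hsim0 p1 (fun z hz => hPC z (hsup z (Or.inl hz))) he1
    have r2 : R.Reachable w' v := walk_sim hsim0 r (fun z hz => hPC z (hsup z (Or.inr hz))) he2
    have r3 : R.Reachable u v :=
      Adj.reachable ((hRadj u v).2 ⟨hCu hu, hCv hv, Or.inr (Or.inr (Or.inr rfl))⟩)
    exact r1.symm.trans (r3.trans r2.symm)
  have hsim : ∀ x ∈ C, ∀ y ∈ C, T.Adj x y → R.Reachable x y := by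
    intro x hx y hy hxy
    by_cases hne : s(x, y) = s(w, w')
    · rw [Sym2.eq_iff] at hne
      rcases hne with ⟨h1, h2⟩ | ⟨h1, h2⟩
      · rw [h1, h2]; exact hww
      · rw [h1, h2]; exact hww.symm
    · exact hsim0 x hx y hy hxy hne
  have hconn : ∀ x ∈ C, ∀ y ∈ C, R.Reachable x y := by
    intro x hx y hy
    have h : Relation.ReflTransGen (res T C).Adj x y :=
      (reachable_iff_reflTransGen x y).1 (hC x hx y hy)
    clear hy
    induction h with
    | refl => exact Reachable.refl x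
    | tail _ h2 ih => exact ih.trans (hsim _ h2.2.1 _ h2.2.2 h2.1)
  -- counting
  have houtsub : ∀ (x : W) (D : Set W), D ⊆ C →
      (univ.filter fun y => T.Adj x y ∧ y ∈ C ∧ y ∉ D).card + out T C x = out T D x := by
    intro x D hD
    unfold out
    rw [← card_union_of_disjoint]
    · congr 1
      ext y
      simp only [mem_union, mem_filter, mem_univ, true_and]
      constructor
      · rintro (⟨h1, h2, h3⟩ | ⟨h1, h2⟩)
        · exact ⟨h1, h3⟩
        · exact ⟨h1, fun h => h2 (hD h)⟩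
      · rintro ⟨h1, h2⟩
        by_cases h3 : y ∈ C
        · exact Or.inl ⟨h1, h3, h2⟩
        · exact Or.inr ⟨h1, h3⟩
    · rw [Finset.disjoint_left]
      intro y h1 h2
      exact (mem_filter.1 h2).2.2 (mem_filter.1 h1).2.2.1
  refine ⟨R, ?_, fun x y h => ⟨((hRadj x y).1 h).1, ((hRadj x y).1 h).2.1⟩, hconn, ?_, ?_, ?_, ?_, ?_, ?_⟩
  · intro x y h
    obtain ⟨h1, h2, h3⟩ := (hRadj x y).1 h
    rcases h3 with h3 | h3 | ⟨h3, h4, h5, h6⟩ | h3
    · exact hRuQ h3
    · exact hRvQ h3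
    · exact hTQ h3
    · rw [Sym2.eq_iff] at h3
      rcases h3 with ⟨h3, h4⟩ | ⟨h3, h4⟩
      · rw [h3, h4]; exact huv
      · rw [h3, h4]; exact huv.symm
  · -- the vertex w
    have h1 : dg R w ≤ ((univ.filter fun y => T.Adj w y ∧ y ∈ C).erase w').card := by
      refine card_le_card fun y hy => ?_
      obtain ⟨h1, h2, h3⟩ := (hRadj _ _).1 (mem_filter.1 hy).2
      rcases h3 with h3 | h3 | ⟨h3, h4, h5, h6⟩ | h3
      · exact absurd (hRu _ _ h3).1 hwu
      · exact absurd (hRv _ _ h3).1 hwv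
      · rw [mem_erase, mem_filter]
        refine ⟨?_, mem_univ _, h3, h2⟩
        rintro rfl
        exact h6 rfl
      · rw [Sym2.eq_iff] at h3
        rcases h3 with ⟨h3, h4⟩ | ⟨h3, h4⟩
        · exact absurd h3 hwu'
        · exact absurd h3 hwv'
    have hmem : w' ∈ univ.filter fun y => T.Adj w y ∧ y ∈ C :=
      mem_filter.2 ⟨mem_univ _, hww', hw'C⟩
    rw [card_erase_of_mem hmem] at h1
    have hpos : 0 < (univ.filter fun y => T.Adj w y ∧ y ∈ C).card := card_pos.2 ⟨w', hmem⟩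
    have h2 : (univ.filter fun y => T.Adj w y ∧ y ∈ C).card + out T C w = dg T w := by
      unfold out dg
      rw [← card_union_of_disjoint]
      · congr 1
        ext y
        simp only [mem_union, mem_filter, mem_univ, true_and]
        tauto
      · rw [Finset.disjoint_left]
        intro y h1 h2
        exact (mem_filter.1 h2).2.2 (mem_filter.1 h1).2.2
    omega
  · intro x hx hxu
    rw [← houtsub x Cu hCu]
    have h1 : dg R x ≤ ((univ.filter fun y => Ru.Adj x y) ∪
        (univ.filter fun y => T.Adj x y ∧ y ∈ C ∧ y ∉ Cu)).card := by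
      refine card_le_card fun y hy => ?_
      obtain ⟨h1, h2, h3⟩ := (hRadj _ _).1 (mem_filter.1 hy).2
      rw [mem_union, mem_filter, mem_filter]
      rcases h3 with h3 | h3 | ⟨h3, h4, h5, h6⟩ | h3
      · exact Or.inl ⟨mem_univ _, h3⟩
      · exact absurd (hRv _ _ h3).1 (hd x hx)
      · exact Or.inr ⟨mem_univ _, h3, h2, fun h => h4 ⟨hx, h⟩⟩
      · rw [Sym2.eq_iff] at h3
        rcases h3 with ⟨h3, h4⟩ | ⟨h3, h4⟩
        · exact absurd h3 hxu
        · exact absurd hv (h3 ▸ hd x hx)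
    have h2 := card_union_le (univ.filter fun y => Ru.Adj x y)
      (univ.filter fun y => T.Adj x y ∧ y ∈ C ∧ y ∉ Cu)
    have h3 : dg Ru x = (univ.filter fun y => Ru.Adj x y).card := rfl
    omega
  · rw [← houtsub u Cu hCu]
    have h1 : dg R u ≤ (insert v ((univ.filter fun y => Ru.Adj u y) ∪
        (univ.filter fun y => T.Adj u y ∧ y ∈ C ∧ y ∉ Cu))).card := by
      refine card_le_card fun y hy => ?_
      obtain ⟨h1, h2, h3⟩ := (hRadj _ _).1 (mem_filter.1 hy).2
      rw [mem_insert, mem_union, mem_filter, mem_filter]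
      rcases h3 with h3 | h3 | ⟨h3, h4, h5, h6⟩ | h3
      · exact Or.inr (Or.inl ⟨mem_univ _, h3⟩)
      · exact absurd (hRv _ _ h3).1 (hd u hu)
      · exact Or.inr (Or.inr ⟨mem_univ _, h3, h2, fun h => h4 ⟨hu, h⟩⟩)
      · rw [Sym2.eq_iff] at h3
        rcases h3 with ⟨h3, h4⟩ | ⟨h3, h4⟩
        · exact Or.inl h4
        · exact absurd h3 huv'
    have h2 := card_insert_le v ((univ.filter fun y => Ru.Adj u y) ∪
        (univ.filter fun y => T.Adj u y ∧ y ∈ C ∧ y ∉ Cu))
    have h4 := card_union_le (univ.filter fun y => Ru.Adj u y)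
      (univ.filter fun y => T.Adj u y ∧ y ∈ C ∧ y ∉ Cu)
    have h3 : dg Ru u = (univ.filter fun y => Ru.Adj u y).card := rfl
    omega
  · intro x hx hxv
    have hxu : x ∉ Cu := fun h => hd x h hx
    rw [← houtsub x Cv hCv]
    have h1 : dg R x ≤ ((univ.filter fun y => Rv.Adj x y) ∪
        (univ.filter fun y => T.Adj x y ∧ y ∈ C ∧ y ∉ Cv)).card := by
      refine card_le_card fun y hy => ?_
      obtain ⟨h1, h2, h3⟩ := (hRadj _ _).1 (mem_filter.1 hy).2
      rw [mem_union, mem_filter, mem_filter]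
      rcases h3 with h3 | h3 | ⟨h3, h4, h5, h6⟩ | h3
      · exact absurd (hRu _ _ h3).1 hxu
      · exact Or.inl ⟨mem_univ _, h3⟩
      · exact Or.inr ⟨mem_univ _, h3, h2, fun h => h5 ⟨hx, h⟩⟩
      · rw [Sym2.eq_iff] at h3
        rcases h3 with ⟨h3, h4⟩ | ⟨h3, h4⟩
        · exact absurd (h3 ▸ hu) hxu
        · exact absurd h3 hxv
    have h2 := card_union_le (univ.filter fun y => Rv.Adj x y)
      (univ.filter fun y => T.Adj x y ∧ y ∈ C ∧ y ∉ Cv)
    have h3 : dg Rv x = (univ.filter fun y => Rv.Adj x y).card := rfl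
    omega
  · have hvu : v ∉ Cu := fun h => hd v h hv
    rw [← houtsub v Cv hCv]
    have h1 : dg R v ≤ (insert u ((univ.filter fun y => Rv.Adj v y) ∪
        (univ.filter fun y => T.Adj v y ∧ y ∈ C ∧ y ∉ Cv))).card := by
      refine card_le_card fun y hy => ?_
      obtain ⟨h1, h2, h3⟩ := (hRadj _ _).1 (mem_filter.1 hy).2
      rw [mem_insert, mem_union, mem_filter, mem_filter]
      rcases h3 with h3 | h3 | ⟨h3, h4, h5, h6⟩ | h3
      · exact absurd (hRu _ _ h3).1 hvu
      · exact Or.inr (Or.inl ⟨mem_univ _, h3⟩)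
      · exact Or.inr (Or.inr ⟨mem_univ _, h3, h2, fun h => h5 ⟨hv, h⟩⟩)
      · rw [Sym2.eq_iff] at h3
        rcases h3 with ⟨h3, h4⟩ | ⟨h3, h4⟩
        · exact absurd h3.symm huv'
        · exact Or.inl h4
    have h2 := card_insert_le u ((univ.filter fun y => Rv.Adj v y) ∪
        (univ.filter fun y => T.Adj v y ∧ y ∈ C ∧ y ∉ Cv))
    have h4 := card_union_le (univ.filter fun y => Rv.Adj v y)
      (univ.filter fun y => T.Adj v y ∧ y ∈ C ∧ y ∉ Cv)
    have h3 : dg Rv v = (univ.filter fun y => Rv.Adj v y).card := rfl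
    omega
  · intro x hx hxu hxv
    have h1 : dg R x ≤ (univ.filter fun y => T.Adj x y ∧ y ∈ C).card := by
      refine card_le_card fun y hy => ?_
      obtain ⟨h1, h2, h3⟩ := (hRadj _ _).1 (mem_filter.1 hy).2
      rw [mem_filter]
      rcases h3 with h3 | h3 | ⟨h3, h4, h5, h6⟩ | h3
      · exact absurd (hRu _ _ h3).1 hxu
      · exact absurd (hRv _ _ h3).1 hxv
      · exact ⟨mem_univ _, h3, h2⟩
      · rw [Sym2.eq_iff] at h3
        rcases h3 with ⟨h3, h4⟩ | ⟨h3, h4⟩
        · exact absurd (h3 ▸ hu) hxu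
        · exact absurd (h3 ▸ hv) hxv
    have h2 : (univ.filter fun y => T.Adj x y ∧ y ∈ C).card + out T C x = dg T x := by
      unfold out dg
      rw [← card_union_of_disjoint]
      · congr 1
        ext y
        simp only [mem_union, mem_filter, mem_univ, true_and]
        tauto
      · rw [Finset.disjoint_left]
        intro y h1 h2
        exact (mem_filter.1 h2).2.2 (mem_filter.1 h1).2.2
    omega

end Pool.Agent.Q112.CH
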